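import Mathlib

/-!
# A graph whose automorphism group is the joint automorphism group of several graphs
-/

namespace Pool.Agent.Lib.MP_9009ba_co

open SimpleGraph

universe u

/-- The permutations preserving all the graphs of a list. -/
def jointAut {Ω : Type u} (L : List (SimpleGraph Ω)) : Subgroup (Equiv.Perm Ω) where
  carrier := {f | ∀ Γ ∈ L, ∀ a b, Γ.Adj (f a) (f b) ↔ Γ.Adj a b}
  mul_mem' := by
    intro f g hf hg Γ hΓ a b
    rw [Equiv.Perm.mul_apply, Equiv.Perm.mul_apply, hf Γ hΓ, hg Γ hΓ]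
  one_mem' := by
    intro Γ _ a b
    rfl
  inv_mem' := by
    intro f hf Γ hΓ a b
    have := hf Γ hΓ (f⁻¹ a) (f⁻¹ b)
    simpa using this.symm

lemma mem_jointAut {Ω : Type u} {L : List (SimpleGraph Ω)} {f : Equiv.Perm Ω} :
    f ∈ jointAut L ↔ ∀ Γ ∈ L, ∀ a b, Γ.Adj (f a) (f b) ↔ Γ.Adj a b := Iff.rfl

/-- Vertices of the combined graph: one copy of `Ω` for each graph of the list, and a path. -/
abbrev Vtx (Ω : Type u) (K : ℕ) : Type u := (Fin K × Ω) ⊕ Fin (2 * K + 1)

/-- Adjacency in the combined graph. -/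
def combAdj {Ω : Type u} {K : ℕ} (Γ : Fin K → SimpleGraph Ω) : Vtx Ω K → Vtx Ω K → Prop
  | Sum.inl (k, a), Sum.inl (k', b) => (k = k' ∧ (Γ k).Adj a b) ∨ (k ≠ k' ∧ a = b)
  | Sum.inl (k, _), Sum.inr j => j.val = 2 * k.val + 2
  | Sum.inr j, Sum.inl (k, _) => j.val = 2 * k.val + 2
  | Sum.inr i, Sum.inr j => i.val + 1 = j.val ∨ j.val + 1 = i.val

/-- The combined graph. -/
def comb {Ω : Type u} {K : ℕ} (Γ : Fin K → SimpleGraph Ω) : SimpleGraph (Vtx Ω K) where
  Adj := combAdj Γ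
  symm := ⟨by
    rintro (⟨k, a⟩ | i) (⟨k', b⟩ | j) h
    · rcases h with ⟨rfl, h⟩ | ⟨h, rfl⟩
      · exact Or.inl ⟨rfl, h.symm⟩
      · exact Or.inr ⟨fun e => h e.symm, rfl⟩
    · exact h
    · exact h
    · rcases h with h | h
      · exact Or.inr h
      · exact Or.inl h⟩
  loopless := ⟨by
    rintro (⟨k, a⟩ | i) h
    · rcases h with ⟨-, h⟩ | ⟨h, -⟩
      · exact (Γ k).loopless.irrefl _ h
      · exact h rfl
    · rcases h with h | h <;> omega⟩

section

variable {Ω : Type u} {K : ℕ} {Γ : Fin K → SimpleGraph Ω}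

lemma adj_ll {k k' : Fin K} {a b : Ω} :
    (comb Γ).Adj (Sum.inl (k, a)) (Sum.inl (k', b)) ↔
      (k = k' ∧ (Γ k).Adj a b) ∨ (k ≠ k' ∧ a = b) := Iff.rfl

lemma adj_lr {k : Fin K} {a : Ω} {j : Fin (2 * K + 1)} :
    (comb Γ).Adj (Sum.inl (k, a)) (Sum.inr j) ↔ j.val = 2 * k.val + 2 := Iff.rfl

lemma adj_rl {k : Fin K} {a : Ω} {j : Fin (2 * K + 1)} :
    (comb Γ).Adj (Sum.inr j) (Sum.inl (k, a)) ↔ j.val = 2 * k.val + 2 := Iff.rfl

lemma adj_rr {i j : Fin (2 * K + 1)} :
    (comb Γ).Adj (Sum.inr i) (Sum.inr j) ↔ (i.val + 1 = j.val ∨ j.val + 1 = i.val) := Iff.rfl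

/-- The only neighbour of the first vertex of the path. -/
lemma nbr_zero (h0 : 0 < 2 * K + 1) {v : Vtx Ω K} (h : (comb Γ).Adj (Sum.inr ⟨0, h0⟩) v) :
    ∃ h1 : 1 < 2 * K + 1, v = Sum.inr ⟨1, h1⟩ := by
  rcases v with ⟨k, a⟩ | j
  · rw [adj_rl] at h
    simp at h
  · rw [adj_rr] at h
    have h1 : j.val = 1 := by
      rcases h with h | h
      · simpa using h.symm
      · simp at h
    refine ⟨by omega, ?_⟩
    congr 1
    exact Fin.ext h1

/-- Every other vertex has two distinct neighbours. -/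
lemma two_nbrs [Nonempty Ω] (hK : 3 ≤ K) (h0 : 0 < 2 * K + 1) {v : Vtx Ω K}
    (hv : v ≠ Sum.inr ⟨0, h0⟩) :
    ∃ x y, x ≠ y ∧ (comb Γ).Adj v x ∧ (comb Γ).Adj v y := by
  rcases v with ⟨k, a⟩ | j
  · have hk := k.isLt
    obtain ⟨k', hk'⟩ : ∃ k' : Fin K, k ≠ k' := by
      by_cases h : k.val = 0
      · refine ⟨⟨1, by omega⟩, ?_⟩
        intro e
        rw [e] at h
        simp at h
      · refine ⟨⟨0, by omega⟩, ?_⟩
        intro e
        rw [e] at h
        simp at h
    refine ⟨Sum.inr ⟨2 * k.val + 2, by omega⟩, Sum.inl (k', a), by simp, ?_, ?_⟩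
    · rw [adj_lr]
    · rw [adj_ll]
      exact Or.inr ⟨hk', rfl⟩
  · have hj := j.isLt
    have hj0 : j.val ≠ 0 := by
      intro e
      apply hv
      congr 1
      exact Fin.ext e
    by_cases hlast : j.val = 2 * K
    · obtain ⟨a⟩ := ‹Nonempty Ω›
      refine ⟨Sum.inr ⟨j.val - 1, by omega⟩, Sum.inl (⟨K - 1, by omega⟩, a), by simp, ?_, ?_⟩
      · rw [adj_rr]
        right
        change j.val - 1 + 1 = j.val
        omega
      · rw [adj_rl]
        change j.val = 2 * (K - 1) + 2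
        omega
    · refine ⟨Sum.inr ⟨j.val - 1, by omega⟩, Sum.inr ⟨j.val + 1, by omega⟩, ?_, ?_, ?_⟩
      · simp only [ne_eq, Sum.inr.injEq, Fin.mk.injEq]
        omega
      · rw [adj_rr]
        right
        change j.val - 1 + 1 = j.val
        omega
      · rw [adj_rr]
        left
        rfl

lemma fix_zero [Nonempty Ω] (hK : 3 ≤ K) (F : comb Γ ≃g comb Γ) (h0 : 0 < 2 * K + 1) :
    F (Sum.inr ⟨0, h0⟩) = Sum.inr ⟨0, h0⟩ := by
  by_contra hne
  obtain ⟨x, y, hxy, hx, hy⟩ := two_nbrs (Γ := Γ) hK h0 hne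
  have hx' : (comb Γ).Adj (Sum.inr ⟨0, h0⟩) (F.symm x) := by
    rw [← F.map_adj_iff]
    simpa using hx
  have hy' : (comb Γ).Adj (Sum.inr ⟨0, h0⟩) (F.symm y) := by
    rw [← F.map_adj_iff]
    simpa using hy
  obtain ⟨h1, ex⟩ := nbr_zero h0 hx'
  obtain ⟨h1, ey⟩ := nbr_zero h0 hy'
  apply hxy
  apply F.symm.injective
  rw [ex, ey]

/-- Neighbours of a vertex of the path with odd index. -/
lemma nbr_odd {j : Fin (2 * K + 1)} (hj : j.val % 2 = 1) {v : Vtx Ω K}
    (h : (comb Γ).Adj (Sum.inr j) v) :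
    ∃ i : Fin (2 * K + 1), v = Sum.inr i ∧ (j.val + 1 = i.val ∨ i.val + 1 = j.val) := by
  rcases v with ⟨k, a⟩ | i
  · rw [adj_rl] at h
    omega
  · exact ⟨i, rfl, adj_rr.1 h⟩

lemma exists_two_others (hK : 3 ≤ K) (k : Fin K) :
    ∃ k' k'' : Fin K, k ≠ k' ∧ k ≠ k'' ∧ k' ≠ k'' := by
  have hk := k.isLt
  by_cases h0 : k.val = 0
  · refine ⟨⟨1, by omega⟩, ⟨2, by omega⟩, ?_, ?_, ?_⟩ <;>
      · intro e
        have := congrArg Fin.val e
        simp at this
        try omega
  · by_cases h1 : k.val = 1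
    · refine ⟨⟨0, by omega⟩, ⟨2, by omega⟩, ?_, ?_, ?_⟩ <;>
        · intro e
          have := congrArg Fin.val e
          simp at this
          try omega
    · refine ⟨⟨0, by omega⟩, ⟨1, by omega⟩, ?_, ?_, ?_⟩ <;>
        · intro e
          have := congrArg Fin.val e
          simp at this
          try omega

lemma fix_path_aux [Nonempty Ω] (hK : 3 ≤ K) (F : comb Γ ≃g comb Γ) (j : ℕ) :
    (∀ h : j < 2 * K + 1, F (Sum.inr ⟨j, h⟩) = Sum.inr ⟨j, h⟩) ∧
      (∀ h : j + 1 < 2 * K + 1, F (Sum.inr ⟨j + 1, h⟩) = Sum.inr ⟨j + 1, h⟩) := by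
  induction j with
  | zero =>
    refine ⟨fun h => fix_zero hK F h, fun h => ?_⟩
    have h0 : 0 < 2 * K + 1 := by omega
    have hadj : (comb Γ).Adj (Sum.inr ⟨0, h0⟩) (Sum.inr ⟨0 + 1, h⟩) := by
      rw [adj_rr]
      simp
    rw [← F.map_adj_iff, fix_zero hK F h0] at hadj
    obtain ⟨h1, e⟩ := nbr_zero h0 hadj
    rw [e]
  | succ j ih =>
    refine ⟨ih.2, fun h => ?_⟩
    have hj : j < 2 * K + 1 := by omega
    have hj1 : j + 1 < 2 * K + 1 := by omega
    have f0 := ih.1 hj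
    have f1 := ih.2 hj1
    have hadj : (comb Γ).Adj (Sum.inr ⟨j + 1, hj1⟩) (Sum.inr ⟨j + 1 + 1, h⟩) := by
      rw [adj_rr]
      simp
    rw [← F.map_adj_iff, f1] at hadj
    have hne : F (Sum.inr ⟨j + 1 + 1, h⟩) ≠ Sum.inr ⟨j, hj⟩ := by
      intro e
      rw [← f0] at e
      have := F.injective e
      simp only [Sum.inr.injEq, Fin.mk.injEq] at this
      omega
    rcases hu : F (Sum.inr ⟨j + 1 + 1, h⟩) with ⟨k, a⟩ | i
    · exfalso
      rw [hu] at hadj hne
      rw [adj_rl] at hadj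
      simp only at hadj
      obtain ⟨k', k'', h1, h2, h3⟩ := exists_two_others hK k
      have hpre : ∀ v, (comb Γ).Adj (Sum.inl (k, a)) v →
          ∃ i : Fin (2 * K + 1), F.symm v = Sum.inr i ∧
            (j + 1 + 1 + 1 = i.val ∨ i.val + 1 = j + 1 + 1) := by
        intro v hv
        have hv' : (comb Γ).Adj (Sum.inr ⟨j + 1 + 1, h⟩) (F.symm v) := by
          rw [← F.map_adj_iff, hu]
          simpa using hv
        have := nbr_odd (by simp only; omega) hv'
        simpa using this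
      obtain ⟨i1, e1, c1⟩ := hpre (Sum.inr ⟨2 * k.val + 2, by omega⟩) (adj_lr.2 rfl)
      obtain ⟨i2, e2, c2⟩ := hpre (Sum.inl (k', a)) (adj_ll.2 (Or.inr ⟨h1, rfl⟩))
      obtain ⟨i3, e3, c3⟩ := hpre (Sum.inl (k'', a)) (adj_ll.2 (Or.inr ⟨h2, rfl⟩))
      have n12 : i1 ≠ i2 := by
        intro e
        rw [e, ← e2] at e1
        have := F.symm.injective e1
        simp at this
      have n13 : i1 ≠ i3 := by
        intro e
        rw [e, ← e3] at e1
        have := F.symm.injective e1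
        simp at this
      have n23 : i2 ≠ i3 := by
        intro e
        rw [e, ← e3] at e2
        have := F.symm.injective e2
        simp only [Sum.inl.injEq, Prod.mk.injEq, and_true] at this
        exact h3 this
      rw [Ne, Fin.ext_iff] at n12 n13 n23
      omega
    · rw [hu] at hadj hne
      rw [adj_rr] at hadj
      simp only at hadj
      congr 1
      apply Fin.ext
      simp only
      rcases hadj with hadj | hadj
      · omega
      · exfalso
        apply hne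
        congr 1
        apply Fin.ext
        simp only
        omega

lemma fix_path [Nonempty Ω] (hK : 3 ≤ K) (F : comb Γ ≃g comb Γ) (j : Fin (2 * K + 1)) :
    F (Sum.inr j) = Sum.inr j :=
  (fix_path_aux hK F j.val).1 j.isLt

lemma map_level [Nonempty Ω] (hK : 3 ≤ K) (F : comb Γ ≃g comb Γ) (k : Fin K) (a : Ω) :
    ∃ b, F (Sum.inl (k, a)) = Sum.inl (k, b) := by
  rcases hu : F (Sum.inl (k, a)) with ⟨k', b⟩ | i
  · have hk := k.isLt
    have hadj : (comb Γ).Adj (Sum.inl (k, a)) (Sum.inr ⟨2 * k.val + 2, by omega⟩) := adj_lr.2 rfl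
    rw [← F.map_adj_iff, fix_path hK F, hu, adj_lr] at hadj
    simp only at hadj
    have : k' = k := Fin.ext (by omega)
    exact ⟨b, by rw [this]⟩
  · exfalso
    rw [← fix_path hK F i] at hu
    have := F.injective hu
    simp at this

/-- An automorphism of the combined graph acts in the same way on all levels. -/
lemma exists_common [Nonempty Ω] (hK : 3 ≤ K) (F : comb Γ ≃g comb Γ) :
    ∃ g : Ω → Ω, ∀ k a, F (Sum.inl (k, a)) = Sum.inl (k, g a) := by
  have hK0 : 0 < K := by omega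
  choose g hg using map_level hK F
  refine ⟨g ⟨0, hK0⟩, fun k a => ?_⟩
  by_cases h : k = ⟨0, hK0⟩
  · subst h
    exact hg _ _
  · have hadj : (comb Γ).Adj (Sum.inl (k, a)) (Sum.inl (⟨0, hK0⟩, a)) :=
      adj_ll.2 (Or.inr ⟨h, rfl⟩)
    rw [← F.map_adj_iff, hg, hg, adj_ll] at hadj
    rcases hadj with ⟨h', -⟩ | ⟨-, h'⟩
    · exact absurd h' h
    · rw [hg, h']

end

/-- The combined graph of a list. -/
def combL {Ω : Type u} (L : List (SimpleGraph Ω)) : SimpleGraph (Vtx Ω L.length) :=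
  comb (fun k : Fin L.length => L.get k)

/-- A permutation preserving all the graphs gives an automorphism of the combined graph. -/
def lift {Ω : Type u} (L : List (SimpleGraph Ω)) (f : jointAut L) : combL L ≃g combL L where
  toEquiv := Equiv.sumCongr (Equiv.prodCongr (Equiv.refl _) f.1) (Equiv.refl _)
  map_rel_iff' := by
    rintro (⟨k, a⟩ | i) (⟨k', b⟩ | j)
    · change (k = k' ∧ (L.get k).Adj (f.1 a) (f.1 b)) ∨ (k ≠ k' ∧ f.1 a = f.1 b) ↔
        (k = k' ∧ (L.get k).Adj a b) ∨ (k ≠ k' ∧ a = b)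
      rw [f.2 (L.get k) (List.get_mem L k) a b, f.1.injective.eq_iff]
    · exact Iff.rfl
    · exact Iff.rfl
    · exact Iff.rfl

lemma lift_inl {Ω : Type u} (L : List (SimpleGraph Ω)) (f : jointAut L) (k : Fin L.length)
    (a : Ω) : lift L f (Sum.inl (k, a)) = Sum.inl (k, f.1 a) := rfl

lemma lift_inr {Ω : Type u} (L : List (SimpleGraph Ω)) (f : jointAut L)
    (j : Fin (2 * L.length + 1)) : lift L f (Sum.inr j) = Sum.inr j := rfl

/-- The homomorphism from the joint automorphism group to the automorphism group of the combined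
graph. -/
def liftHom {Ω : Type u} (L : List (SimpleGraph Ω)) : jointAut L →* (combL L ≃g combL L) where
  toFun := lift L
  map_one' := by
    apply RelIso.ext
    rintro (⟨k, a⟩ | i) <;> rfl
  map_mul' := by
    intro f g
    apply RelIso.ext
    rintro (⟨k, a⟩ | i) <;> rfl

theorem liftHom_bijective {Ω : Type u} [Nonempty Ω] (L : List (SimpleGraph Ω))
    (hL : 3 ≤ L.length) : Function.Bijective (liftHom L) := by
  have hK0 : 0 < L.length := by omega
  constructor
  · intro f g h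
    apply Subtype.ext
    apply Equiv.ext
    intro a
    have h1 : liftHom L f (Sum.inl (⟨0, hK0⟩, a)) = liftHom L g (Sum.inl (⟨0, hK0⟩, a)) := by
      rw [h]
    change (Sum.inl (⟨0, hK0⟩, f.1 a) : Vtx Ω L.length) = Sum.inl (⟨0, hK0⟩, g.1 a) at h1
    simpa using h1
  · intro F
    obtain ⟨g, hg0⟩ := exists_common (Γ := fun k : Fin L.length => L.get k) hL F
    obtain ⟨g', hg0'⟩ := exists_common (Γ := fun k : Fin L.length => L.get k) hL F.symm
    have hg : ∀ k a, F (Sum.inl (k, a)) = Sum.inl (k, g a) := hg0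
    have hg' : ∀ k a, F.symm (Sum.inl (k, a)) = Sum.inl (k, g' a) := hg0'
    have hgg' : ∀ a, g (g' a) = a := by
      intro a
      have h1 : F (F.symm (Sum.inl (⟨0, hK0⟩, a))) = Sum.inl (⟨0, hK0⟩, a) :=
        F.apply_symm_apply _
      rw [hg', hg] at h1
      simpa using h1
    have hg'g : ∀ a, g' (g a) = a := by
      intro a
      have h1 : F.symm (F (Sum.inl (⟨0, hK0⟩, a))) = Sum.inl (⟨0, hK0⟩, a) :=
        F.symm_apply_apply _
      rw [hg, hg'] at h1
      simpa using h1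
    let f : Equiv.Perm Ω := ⟨g, g', hg'g, hgg'⟩
    have hf : f ∈ jointAut L := by
      intro Γ hΓ a b
      obtain ⟨k, rfl⟩ := List.mem_iff_get.1 hΓ
      have h1 := F.map_adj_iff (v := Sum.inl (k, a)) (w := Sum.inl (k, b))
      rw [hg, hg] at h1
      have h2 : ∀ x y : Ω, (combL L).Adj (Sum.inl (k, x)) (Sum.inl (k, y)) ↔
          (L.get k).Adj x y := by
        intro x y
        change ((k = k ∧ (L.get k).Adj x y) ∨ (k ≠ k ∧ x = y)) ↔ _
        simp
      rw [h2, h2] at h1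
      exact h1
    refine ⟨⟨f, hf⟩, ?_⟩
    apply RelIso.ext
    rintro (⟨k, a⟩ | i)
    · exact (hg k a).symm
    · exact (fix_path (Γ := fun k : Fin L.length => L.get k) hL F i).symm

/-- The automorphism group of the combined graph is the joint automorphism group. -/
noncomputable def combEquiv {Ω : Type u} [Nonempty Ω] (L : List (SimpleGraph Ω))
    (hL : 3 ≤ L.length) : jointAut L ≃* (combL L ≃g combL L) :=
  MulEquiv.ofBijective (liftHom L) (liftHom_bijective L hL)

end Pool.Agent.Lib.MP_9009ba_co
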