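import Mathlib
import Pool.Agent.Lib.MP_9009ba_co.GraphLemma

/-!
# A group as joint automorphism group of graphs on three coset spaces
-/

namespace Pool.Agent.Lib.MP_9009ba_co

open SimpleGraph

universe u

section

variable {G : Type u} [Group G] (H : Fin 3 → Subgroup G)

/-- The disjoint union of the three coset spaces. -/
abbrev Cos : Type u := Σ a : Fin 3, G ⧸ H a

/-- The coset `x H_a`. -/
def pt (a : Fin 3) (x : G) : Cos H := ⟨a, (x : G ⧸ H a)⟩

variable {H}

lemma pt_fst (a : Fin 3) (x : G) : (pt H a x).1 = a := rfl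

lemma pt_eq {a : Fin 3} {x y : G} : pt H a x = pt H a y ↔ x⁻¹ * y ∈ H a := by
  constructor
  · intro h
    have h' : (x : G ⧸ H a) = (y : G ⧸ H a) := by
      simpa [pt] using h
    exact QuotientGroup.eq.1 h'
  · intro h
    have h' : (x : G ⧸ H a) = (y : G ⧸ H a) := QuotientGroup.eq.2 h
    simp [pt, h']

lemma pt_surj (ω : Cos H) : ∃ x, ω = pt H ω.1 x := by
  obtain ⟨a, q⟩ := ω
  obtain ⟨x, rfl⟩ := QuotientGroup.mk_surjective q
  exact ⟨x, rfl⟩

variable (H)

/-- The relation consisting of the pairs `(x H_a, x d H_b)` with `d ∈ D`. -/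
def Rel (a b : Fin 3) (D : Set G) (ω ω' : Cos H) : Prop :=
  ∃ x d, d ∈ D ∧ ω = pt H a x ∧ ω' = pt H b (x * d)

/-- The graph of the relation. -/
def relGraph (a b : Fin 3) (D : Set G) : SimpleGraph (Cos H) :=
  SimpleGraph.fromRel (Rel H a b D)

/-- The complete graph on the coset space of index `a`. -/
def fullGraph (a : Fin 3) : SimpleGraph (Cos H) :=
  SimpleGraph.fromRel (fun ω ω' => ω.1 = a ∧ ω'.1 = a)

variable {H}

/-- `f` preserves the graph `Γ`. -/
def Pres {Ω : Type u} (f : Equiv.Perm Ω) (Γ : SimpleGraph Ω) : Prop :=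
  ∀ a b, Γ.Adj (f a) (f b) ↔ Γ.Adj a b

lemma fst_of_full {f : Equiv.Perm (Cos H)} (hf : ∀ a, Pres f (fullGraph H a))
    (hne : ∀ a, H a ≠ ⊤) (ω : Cos H) : (f ω).1 = ω.1 := by
  obtain ⟨x, hx⟩ := pt_surj ω
  -- another point in the same coset space
  obtain ⟨g, hg⟩ : ∃ g, g ∉ H ω.1 := by
    by_contra hcon
    push Not at hcon
    exact hne ω.1 ((Subgroup.eq_top_iff' _).2 hcon)
  have hne' : ω ≠ pt H ω.1 (x * g) := by
    intro e
    rw [hx] at e
    rw [pt_fst, pt_eq] at e
    apply hg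
    simpa using e
  have hadj : (fullGraph H ω.1).Adj ω (pt H ω.1 (x * g)) := by
    refine ⟨hne', Or.inl ⟨rfl, rfl⟩⟩
  rw [← hf ω.1] at hadj
  rcases hadj.2 with h | h
  · exact h.1
  · exact h.2

lemma fst_ne_of_rel {a b : Fin 3} (hab : a ≠ b) {D : Set G} {f : Equiv.Perm (Cos H)}
    (hfst : ∀ ω, (f ω).1 = ω.1) (hf : Pres f (relGraph H a b D)) (x : G) {d : G} (hd : d ∈ D) :
    ∃ u d', d' ∈ D ∧ f (pt H a x) = pt H a u ∧ f (pt H b (x * d)) = pt H b (u * d') := by
  have hne : pt H a x ≠ pt H b (x * d) := by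
    intro e
    apply hab
    have := congrArg Sigma.fst e
    exact this
  have hadj : (relGraph H a b D).Adj (pt H a x) (pt H b (x * d)) :=
    ⟨hne, Or.inl ⟨x, d, hd, rfl, rfl⟩⟩
  rw [← hf] at hadj
  rcases hadj.2 with ⟨u, d', hd', e1, e2⟩ | ⟨u, d', hd', e1, e2⟩
  · exact ⟨u, d', hd', e1, e2⟩
  · exfalso
    apply hab
    have h1 := hfst (pt H b (x * d))
    rw [e1, pt_fst, pt_fst] at h1
    exact h1

/-- The element `g` is good: two conditions on conjugates of products. -/
def Good (H : Fin 3 → Subgroup G) (g : G) : Prop :=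
  (∀ β ∈ H 1, ∀ γ ∈ H 2, g * (β * γ) * g⁻¹ ∈ H 0 → β * γ = 1) ∧
    (∀ α ∈ H 0, ∀ γ ∈ H 2, g * (α * γ) * g⁻¹ ∈ H 1 → α * γ = 1)

/-- Pairwise trivial intersections and `H_0 H_1 ∩ H_2 = 1`. -/
structure Indep (H : Fin 3 → Subgroup G) : Prop where
  h01 : ∀ g, g ∈ H 0 → g ∈ H 1 → g = 1
  h02 : ∀ g, g ∈ H 0 → g ∈ H 2 → g = 1
  h12 : ∀ g, g ∈ H 1 → g ∈ H 2 → g = 1
  hT : ∀ α ∈ H 0, ∀ β ∈ H 1, α * β ∈ H 2 → α * β = 1

lemma good_unique (hI : Indep H) {g z : G} (hg : Good H g)
    (h1 : ∃ α ∈ H 0, ∃ β ∈ H 1, z = α * g * β)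
    (h2 : ∃ α ∈ H 0, ∃ γ ∈ H 2, z = α * g * γ)
    (h3 : ∃ β ∈ H 1, ∃ α ∈ H 0, z = β * g * α)
    (h4 : ∃ β ∈ H 1, ∃ γ ∈ H 2, z = β * g * γ) : z = g := by
  obtain ⟨α, hα, β, hβ, e1⟩ := h1
  obtain ⟨α', hα', γ, hγ, e2⟩ := h2
  obtain ⟨β', hβ', α'', hα'', e3⟩ := h3
  obtain ⟨β'', hβ'', γ', hγ', e4⟩ := h4
  -- first pair
  have k1 : g * (β * γ⁻¹) * g⁻¹ = α⁻¹ * α' := by
    have : α * g * β = α' * g * γ := by rw [← e1, ← e2]
    have h : g * β * γ⁻¹ = α⁻¹ * (α' * g) := by
      calc g * β * γ⁻¹ = α⁻¹ * (α * g * β) * γ⁻¹ := by group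
        _ = α⁻¹ * (α' * g * γ) * γ⁻¹ := by rw [this]
        _ = α⁻¹ * (α' * g) := by group
    calc g * (β * γ⁻¹) * g⁻¹ = (g * β * γ⁻¹) * g⁻¹ := by group
      _ = α⁻¹ * (α' * g) * g⁻¹ := by rw [h]
      _ = α⁻¹ * α' := by group
  have k2 : β * γ⁻¹ = 1 := by
    apply hg.1 β hβ γ⁻¹ ((H 2).inv_mem hγ)
    rw [k1]
    exact (H 0).mul_mem ((H 0).inv_mem hα) hα'
  have k3 : β = γ := by
    rw [mul_inv_eq_one] at k2
    exact k2
  have k4 : β = 1 := hI.h12 β hβ (k3 ▸ hγ)
  -- second pair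
  have l1 : g * (α'' * γ'⁻¹) * g⁻¹ = β'⁻¹ * β'' := by
    have : β' * g * α'' = β'' * g * γ' := by rw [← e3, ← e4]
    have h : g * α'' * γ'⁻¹ = β'⁻¹ * (β'' * g) := by
      calc g * α'' * γ'⁻¹ = β'⁻¹ * (β' * g * α'') * γ'⁻¹ := by group
        _ = β'⁻¹ * (β'' * g * γ') * γ'⁻¹ := by rw [this]
        _ = β'⁻¹ * (β'' * g) := by group
    calc g * (α'' * γ'⁻¹) * g⁻¹ = (g * α'' * γ'⁻¹) * g⁻¹ := by group
      _ = β'⁻¹ * (β'' * g) * g⁻¹ := by rw [h]
      _ = β'⁻¹ * β'' := by group
  have l2 : α'' * γ'⁻¹ = 1 := by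
    apply hg.2 α'' hα'' γ'⁻¹ ((H 2).inv_mem hγ')
    rw [l1]
    exact (H 1).mul_mem ((H 1).inv_mem hβ') hβ''
  have l3 : α'' = γ' := by
    rw [mul_inv_eq_one] at l2
    exact l2
  have l4 : α'' = 1 := hI.h02 α'' hα'' (l3 ▸ hγ')
  rw [k4, mul_one] at e1
  rw [l4, mul_one] at e3
  have m1 : α = β' := by
    have : α * g = β' * g := by rw [← e1, ← e3]
    exact mul_right_cancel this
  have m2 : α = 1 := hI.h01 α hα (m1 ▸ hβ')
  rw [e1, m2, one_mul]

/-- A permutation preserving the basic relations comes from a map `G → G`. -/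
lemma flag (hI : Indep H) {f : Equiv.Perm (Cos H)} (hfst : ∀ ω, (f ω).1 = ω.1)
    (h01 : Pres f (relGraph H 0 1 {1})) (h02 : Pres f (relGraph H 0 2 {1}))
    (h12 : Pres f (relGraph H 1 2 {1})) (x : G) : ∃ z, ∀ a, f (pt H a x) = pt H a z := by
  obtain ⟨u, d, hd, e1, e2⟩ := fst_ne_of_rel (by decide) hfst h01 x (Set.mem_singleton 1)
  obtain ⟨v, d', hd', e3, e4⟩ := fst_ne_of_rel (by decide) hfst h02 x (Set.mem_singleton 1)
  obtain ⟨w, d'', hd'', e5, e6⟩ := fst_ne_of_rel (by decide) hfst h12 x (Set.mem_singleton 1)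
  rw [Set.mem_singleton_iff] at hd hd' hd''
  subst hd hd' hd''
  rw [mul_one, mul_one] at e2 e4 e6
  have a1 : u⁻¹ * v ∈ H 0 := pt_eq.1 (e1.symm.trans e3)
  have a2 : u⁻¹ * w ∈ H 1 := pt_eq.1 (e2.symm.trans e5)
  have a3 : v⁻¹ * w ∈ H 2 := pt_eq.1 (e4.symm.trans e6)
  have a4 : (u⁻¹ * v)⁻¹ * (u⁻¹ * w) = v⁻¹ * w := by group
  have a5 : v⁻¹ * w = 1 := by
    rw [← a4]
    apply hI.hT _ ((H 0).inv_mem a1) _ a2
    rw [a4]
    exact a3
  have a6 : v = w := by
    rwa [inv_mul_eq_one] at a5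
  have a7 : u⁻¹ * v = 1 := hI.h01 _ a1 (by rw [a6]; exact a2)
  have a8 : u = v := by
    rwa [inv_mul_eq_one] at a7
  refine ⟨u, fun a => ?_⟩
  fin_cases a
  · exact e1
  · exact e2
  · rw [a8]
    exact e4

/-- The double coset relation satisfied by the map `φ`. -/
lemma double_coset {a b : Fin 3} (hab : a ≠ b) {D : Set G} {f : Equiv.Perm (Cos H)}
    (hfst : ∀ ω, (f ω).1 = ω.1) {φ : G → G} (hφ : ∀ x a, f (pt H a x) = pt H a (φ x))
    (hf : Pres f (relGraph H a b D)) (x : G) {d : G} (hd : d ∈ D) :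
    ∃ α ∈ H a, ∃ d' ∈ D, ∃ β ∈ H b, (φ x)⁻¹ * φ (x * d) = α * d' * β := by
  obtain ⟨u, d', hd', e1, e2⟩ := fst_ne_of_rel hab hfst hf x hd
  rw [hφ] at e1 e2
  have h1 : (φ x)⁻¹ * u ∈ H a := pt_eq.1 e1
  have h2 : (φ (x * d))⁻¹ * (u * d') ∈ H b := pt_eq.1 e2
  refine ⟨(φ x)⁻¹ * u, h1, d', hd', ((φ (x * d))⁻¹ * (u * d'))⁻¹, (H b).inv_mem h2, ?_⟩
  group

/-- The four relation graphs attached to a set. -/
def four (H : Fin 3 → Subgroup G) (D : Set G) : List (SimpleGraph (Cos H)) :=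
  [relGraph H 0 1 D, relGraph H 0 2 D, relGraph H 1 0 D, relGraph H 1 2 D]

lemma single_good (hI : Indep H) {f : Equiv.Perm (Cos H)}
    (hfst : ∀ ω, (f ω).1 = ω.1) {φ : G → G} (hφ : ∀ x a, f (pt H a x) = pt H a (φ x))
    {s : G} (hs : Good H s) (hf : ∀ Γ ∈ four H {s}, Pres f Γ) (x : G) :
    φ (x * s) = φ x * s := by
  have k1 := double_coset (by decide) hfst hφ (hf (relGraph H 0 1 {s}) (by simp [four])) x
    (Set.mem_singleton s)
  have k2 := double_coset (by decide) hfst hφ (hf (relGraph H 0 2 {s}) (by simp [four])) x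
    (Set.mem_singleton s)
  have k3 := double_coset (by decide) hfst hφ (hf (relGraph H 1 0 {s}) (by simp [four])) x
    (Set.mem_singleton s)
  have k4 := double_coset (by decide) hfst hφ (hf (relGraph H 1 2 {s}) (by simp [four])) x
    (Set.mem_singleton s)
  have h : (φ x)⁻¹ * φ (x * s) = s := by
    apply good_unique hI hs
    · obtain ⟨α, hα, d, hd, β, hβ, e⟩ := k1
      rw [Set.mem_singleton_iff] at hd
      exact ⟨α, hα, β, hβ, by rw [e, hd]⟩
    · obtain ⟨α, hα, d, hd, β, hβ, e⟩ := k2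
      rw [Set.mem_singleton_iff] at hd
      exact ⟨α, hα, β, hβ, by rw [e, hd]⟩
    · obtain ⟨α, hα, d, hd, β, hβ, e⟩ := k3
      rw [Set.mem_singleton_iff] at hd
      exact ⟨α, hα, β, hβ, by rw [e, hd]⟩
    · obtain ⟨α, hα, d, hd, β, hβ, e⟩ := k4
      rw [Set.mem_singleton_iff] at hd
      exact ⟨α, hα, β, hβ, by rw [e, hd]⟩
  calc φ (x * s) = φ x * ((φ x)⁻¹ * φ (x * s)) := by group
    _ = φ x * s := by rw [h]

/-- Irredundancy of the family `g` modulo the subgroup `B`. -/
def Irred (B : Subgroup G) {d : ℕ} (g : Fin d → G) : Prop :=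
  ∀ i, g i ∉ Subgroup.closure ((B : Set G) ∪ g '' {j | j ≠ i})

lemma mem_C_of_mem {B : Subgroup G} {d : ℕ} (g : Fin d → G) (i : Fin d) {b : G} (hb : b ∈ B) :
    b ∈ Subgroup.closure ((B : Set G) ∪ g '' {j | j ≠ i}) :=
  Subgroup.subset_closure (Or.inl hb)

lemma mem_C_of_ne {B : Subgroup G} {d : ℕ} (g : Fin d → G) {i j : Fin d} (h : j ≠ i) :
    g j ∈ Subgroup.closure ((B : Set G) ∪ g '' {j | j ≠ i}) :=
  Subgroup.subset_closure (Or.inr ⟨j, h, rfl⟩)

lemma irr1 {B : Subgroup G} {d : ℕ} {g : Fin d → G} (hg : Irred B g) {j k : Fin d}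
    {a b a' b' : G} (ha : a ∈ B) (hb : b ∈ B) (ha' : a' ∈ B) (hb' : b' ∈ B)
    (h : a * g j * b = a' * g k * b') : j = k := by
  by_contra hne
  apply hg j
  have e : g j = a⁻¹ * a' * g k * b' * b⁻¹ := by
    calc g j = a⁻¹ * (a * g j * b) * b⁻¹ := by group
      _ = a⁻¹ * (a' * g k * b') * b⁻¹ := by rw [h]
      _ = a⁻¹ * a' * g k * b' * b⁻¹ := by group
  rw [e]
  have hk : k ≠ j := fun e => hne e.symm
  exact mul_mem (mul_mem (mul_mem (mul_mem (inv_mem (mem_C_of_mem g j ha))
    (mem_C_of_mem g j ha')) (mem_C_of_ne g hk)) (mem_C_of_mem g j hb'))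
    (inv_mem (mem_C_of_mem g j hb))

lemma irr2 {B : Subgroup G} {d : ℕ} {g : Fin d → G} (hg : Irred B g) {j k l l' : Fin d}
    (hjk : j ≠ k) {a b : G} (ha : a ∈ B) (hb : b ∈ B)
    (h : (g j)⁻¹ * g k = a * ((g l)⁻¹ * g l') * b) :
    (j = l ∧ k = l') ∨ (j = l' ∧ k = l) := by
  have hj : j = l ∨ j = l' := by
    by_contra hcon
    push Not at hcon
    apply hg j
    have e : g j = (a * ((g l)⁻¹ * g l') * b * (g k)⁻¹)⁻¹ := by
      rw [← h]
      group
    rw [e]
    exact inv_mem (mul_mem (mul_mem (mul_mem (mem_C_of_mem g j ha)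
      (mul_mem (inv_mem (mem_C_of_ne g (Ne.symm hcon.1))) (mem_C_of_ne g (Ne.symm hcon.2))))
      (mem_C_of_mem g j hb)) (inv_mem (mem_C_of_ne g (Ne.symm hjk))))
  have hk : k = l ∨ k = l' := by
    by_contra hcon
    push Not at hcon
    apply hg k
    have e : g k = g j * (a * ((g l)⁻¹ * g l') * b) := by
      rw [← h]
      group
    rw [e]
    exact mul_mem (mem_C_of_ne g hjk) (mul_mem (mul_mem (mem_C_of_mem g k ha)
      (mul_mem (inv_mem (mem_C_of_ne g (Ne.symm hcon.1))) (mem_C_of_ne g (Ne.symm hcon.2))))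
      (mem_C_of_mem g k hb))
  rcases hj with hj | hj <;> rcases hk with hk | hk
  · exact absurd (hj.trans hk.symm) hjk
  · exact Or.inl ⟨hj, hk⟩
  · exact Or.inr ⟨hj, hk⟩
  · exact absurd (hj.trans hk.symm) hjk

lemma irr3 {B : Subgroup G} {d : ℕ} {g : Fin d → G} (hg : Irred B g) {j k l : Fin d}
    (hjk : j ≠ k) {a b : G} (ha : a ∈ B) (hb : b ∈ B)
    (h : (g j)⁻¹ * g k = a * g l * b) : False := by
  by_cases hj : j = l
  · -- then `k ≠ l`
    apply hg k
    have e : g k = g j * (a * g l * b) := by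
      rw [← h]
      group
    rw [e]
    exact mul_mem (mem_C_of_ne g hjk) (mul_mem (mul_mem (mem_C_of_mem g k ha)
      (mem_C_of_ne g (hj ▸ hjk))) (mem_C_of_mem g k hb))
  · apply hg j
    have e : g j = (a * g l * b * (g k)⁻¹)⁻¹ := by
      rw [← h]
      group
    rw [e]
    exact inv_mem (mul_mem (mul_mem (mul_mem (mem_C_of_mem g j ha)
      (mem_C_of_ne g (Ne.symm hj))) (mem_C_of_mem g j hb))
      (inv_mem (mem_C_of_ne g (Ne.symm hjk))))

lemma irr4 {B : Subgroup G} {d : ℕ} {g : Fin d → G} (hg : Irred B g) {j l l' : Fin d}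
    (hll : l ≠ l') {a b : G} (ha : a ∈ B) (hb : b ∈ B)
    (h : g j = a * ((g l)⁻¹ * g l') * b) : False := by
  by_cases hj : j = l'
  · -- then `g l` is expressed by the others
    apply hg l
    have e : g l = (a⁻¹ * g j * b⁻¹ * (g l')⁻¹)⁻¹ := by
      rw [h]
      group
    rw [e]
    exact inv_mem (mul_mem (mul_mem (mul_mem (inv_mem (mem_C_of_mem g l ha))
      (mem_C_of_ne g (hj ▸ Ne.symm hll))) (inv_mem (mem_C_of_mem g l hb)))
      (inv_mem (mem_C_of_ne g (Ne.symm hll))))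
  · by_cases hj' : j = l
    · apply hg l'
      have e : g l' = g l * a⁻¹ * g j * b⁻¹ := by
        rw [h]
        group
      rw [e]
      exact mul_mem (mul_mem (mul_mem (mem_C_of_ne g hll) (inv_mem (mem_C_of_mem g l' ha)))
        (mem_C_of_ne g hj)) (inv_mem (mem_C_of_mem g l' hb))
    · apply hg j
      rw [h]
      exact mul_mem (mul_mem (mem_C_of_mem g j ha) (mul_mem
        (inv_mem (mem_C_of_ne g (Ne.symm hj'))) (mem_C_of_ne g (Ne.symm hj))))
        (mem_C_of_mem g j hb)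

/-- The set encoding the order of the generators. -/
def pathSet {d : ℕ} (g : Fin d → G) : Set G :=
  {e | (∃ h : 0 < d, e = g ⟨0, h⟩) ∨
    ∃ (i : ℕ) (h : i + 1 < d), e = (g ⟨i, by omega⟩)⁻¹ * g ⟨i + 1, h⟩}

lemma path_good (hI : Indep H) {f : Equiv.Perm (Cos H)}
    (hfst : ∀ ω, (f ω).1 = ω.1) {φ : G → G} (hφ : ∀ x a, f (pt H a x) = pt H a (φ x))
    (hinj : Function.Injective φ) {B : Subgroup G} (hB : ∀ a, H a ≤ B)
    {d : ℕ} {g : Fin d → G} (hgood : ∀ i, Good H (g i)) (hirr : Irred B g)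
    (hf : ∀ Γ ∈ four H (Set.range g), Pres f Γ)
    (hE : Pres f (relGraph H 0 1 (pathSet g))) (x : G) (i : Fin d) :
    φ (x * g i) = φ x * g i := by
  -- first: up to a permutation of the indices
  have hperm : ∀ i : Fin d, ∃ j : Fin d, φ (x * g i) = φ x * g j := by
    intro i
    have hi : g i ∈ Set.range g := ⟨i, rfl⟩
    obtain ⟨α1, hα1, _, ⟨j1, rfl⟩, β1, hβ1, e1⟩ :=
      double_coset (by decide) hfst hφ (hf (relGraph H 0 1 (Set.range g)) (by simp [four])) x hi
    obtain ⟨α2, hα2, _, ⟨j2, rfl⟩, β2, hβ2, e2⟩ :=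
      double_coset (by decide) hfst hφ (hf (relGraph H 0 2 (Set.range g)) (by simp [four])) x hi
    obtain ⟨α3, hα3, _, ⟨j3, rfl⟩, β3, hβ3, e3⟩ :=
      double_coset (by decide) hfst hφ (hf (relGraph H 1 0 (Set.range g)) (by simp [four])) x hi
    obtain ⟨α4, hα4, _, ⟨j4, rfl⟩, β4, hβ4, e4⟩ :=
      double_coset (by decide) hfst hφ (hf (relGraph H 1 2 (Set.range g)) (by simp [four])) x hi
    have c2 : j1 = j2 := irr1 hirr (hB 0 hα1) (hB 1 hβ1) (hB 0 hα2) (hB 2 hβ2) (e1.symm.trans e2)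
    have c3 : j1 = j3 := irr1 hirr (hB 0 hα1) (hB 1 hβ1) (hB 1 hα3) (hB 0 hβ3) (e1.symm.trans e3)
    have c4 : j1 = j4 := irr1 hirr (hB 0 hα1) (hB 1 hβ1) (hB 1 hα4) (hB 2 hβ4) (e1.symm.trans e4)
    subst c2 c3 c4
    refine ⟨j1, ?_⟩
    have := good_unique hI (hgood j1) ⟨α1, hα1, β1, hβ1, e1⟩ ⟨α2, hα2, β2, hβ2, e2⟩
      ⟨α3, hα3, β3, hβ3, e3⟩ ⟨α4, hα4, β4, hβ4, e4⟩
    rw [← this]
    group
  -- the generators are distinct
  have hginj : ∀ i j : Fin d, g i = g j → i = j := by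
    intro i j h
    exact irr1 hirr (one_mem B) (one_mem B) (one_mem B) (one_mem B) (by rw [h])
  have key : ∀ (n : ℕ) (hn : n < d), φ (x * g ⟨n, hn⟩) = φ x * g ⟨n, hn⟩ := by
    intro n
    induction n using Nat.strong_induction_on with
    | _ n ih =>
      intro hn
      obtain ⟨j, hj⟩ := hperm ⟨n, hn⟩
      rcases Nat.eq_zero_or_pos n with h0 | hpos
      · subst h0
        have hmem : g ⟨0, hn⟩ ∈ pathSet g := Or.inl ⟨hn, rfl⟩
        obtain ⟨α, hα, e, he, β, hβ, heq⟩ := double_coset (by decide) hfst hφ hE x hmem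
        rw [hj, inv_mul_cancel_left] at heq
        rcases he with ⟨h, rfl⟩ | ⟨l, h, rfl⟩
        · have : j = ⟨0, hn⟩ := irr1 hirr (one_mem B) (one_mem B) (hB 0 hα) (hB 1 hβ)
            (by rw [one_mul, mul_one]; exact heq)
          rw [hj, this]
        · exfalso
          refine irr4 hirr (l := ⟨l, by omega⟩) (l' := ⟨l + 1, h⟩) ?_ (hB 0 hα) (hB 1 hβ) heq
          simp [Fin.ext_iff]
      · obtain ⟨m, rfl⟩ : ∃ m, n = m + 1 := ⟨n - 1, by omega⟩
        have hm : m < d := by omega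
        have ihm := ih m (by omega) hm
        have hmem : (g ⟨m, hm⟩)⁻¹ * g ⟨m + 1, hn⟩ ∈ pathSet g := Or.inr ⟨m, hn, rfl⟩
        obtain ⟨α, hα, e, he, β, hβ, heq⟩ :=
          double_coset (by decide) hfst hφ hE (x * g ⟨m, hm⟩) hmem
        have e1 : x * g ⟨m, hm⟩ * ((g ⟨m, hm⟩)⁻¹ * g ⟨m + 1, hn⟩) = x * g ⟨m + 1, hn⟩ := by
          group
        have e2 : (φ x * g ⟨m, hm⟩)⁻¹ * (φ x * g j) = (g ⟨m, hm⟩)⁻¹ * g j := by group
        rw [e1, hj, ihm, e2] at heq
        have hjm : (⟨m, hm⟩ : Fin d) ≠ j := by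
          intro h
          rw [← h, ← ihm] at hj
          have := hinj hj
          have := hginj _ _ (mul_left_cancel this)
          simp [Fin.ext_iff] at this
        rcases he with ⟨h, rfl⟩ | ⟨l, h, rfl⟩
        · exact (irr3 hirr hjm (hB 0 hα) (hB 1 hβ) heq).elim
        · rcases irr2 hirr hjm (hB 0 hα) (hB 1 hβ) heq with ⟨c1, c2⟩ | ⟨c1, c2⟩
          · have c1' := congrArg Fin.val c1
            simp only at c1'
            subst c1'
            rw [hj, c2]
          · exfalso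
            have c1' := congrArg Fin.val c1
            simp only at c1'
            have hl : l < m + 1 := by omega
            have ihl := ih l hl (by omega)
            rw [c2, ← ihl] at hj
            have := hginj _ _ (mul_left_cancel (hinj hj))
            have := congrArg Fin.val this
            simp only at this
            omega
  exact key i.val i.isLt

/-- Existence of irredundant generating families with a given property. -/
lemma exists_irred [Finite G] (B : Subgroup G) (P : G → Prop)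
    (hP : Subgroup.closure ((B : Set G) ∪ {g | P g}) = ⊤) :
    ∃ (d : ℕ) (g : Fin d → G), (∀ i, P (g i)) ∧ Irred B g ∧
      Subgroup.closure ((B : Set G) ∪ Set.range g) = ⊤ := by
  classical
  have hex : ∃ (d : ℕ), ∃ g : Fin d → G, (∀ i, P (g i)) ∧
      Subgroup.closure ((B : Set G) ∪ Set.range g) = ⊤ := by
    obtain ⟨n, ⟨e⟩⟩ := Finite.exists_equiv_fin {g : G // P g}
    refine ⟨n, fun i => (e.symm i).1, fun i => (e.symm i).2, ?_⟩
    have : Set.range (fun i => (e.symm i).1) = {g | P g} := by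
      ext g
      constructor
      · rintro ⟨i, rfl⟩
        exact (e.symm i).2
      · intro hg
        exact ⟨e ⟨g, hg⟩, by simp⟩
    rw [this]
    exact hP
  obtain ⟨g, hg, hgen⟩ := Nat.find_spec hex
  refine ⟨Nat.find hex, g, hg, ?_, hgen⟩
  intro i hi
  have hpos : 0 < Nat.find hex := lt_of_le_of_lt (Nat.zero_le _) i.isLt
  obtain ⟨d', hd'⟩ : ∃ d', Nat.find hex = d' + 1 := ⟨Nat.find hex - 1, by omega⟩
  -- remove the generator `i`
  let c : Fin (d' + 1) ≃ Fin (Nat.find hex) := finCongr hd'.symm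
  let i' : Fin (d' + 1) := c.symm i
  let g' : Fin d' → G := fun j => g (c (i'.succAbove j))
  have hrange : Set.range g' = g '' {j | j ≠ i} := by
    ext y
    constructor
    · rintro ⟨j, rfl⟩
      refine ⟨c (i'.succAbove j), ?_, rfl⟩
      intro h
      have : i'.succAbove j = i' := by
        apply c.injective
        rw [h]
        simp [i']
      exact Fin.succAbove_ne i' j this
    · rintro ⟨j, hj, rfl⟩
      have hj' : c.symm j ≠ i' := by
        intro h
        exact hj (c.symm.injective h)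
      obtain ⟨k, hk⟩ := Fin.exists_succAbove_eq hj'
      refine ⟨k, ?_⟩
      simp only [g', hk, Equiv.apply_symm_apply]
  have hmin := Nat.find_min hex (m := d') (by omega)
  apply hmin
  refine ⟨g', fun j => hg _, ?_⟩
  rw [hrange, eq_top_iff]
  refine hgen.ge.trans ?_
  rw [Subgroup.closure_le]
  rintro y (hy | ⟨j, rfl⟩)
  · exact mem_C_of_mem g i hy
  · by_cases hji : j = i
    · rw [hji]
      exact hi
    · exact mem_C_of_ne g hji

/-- Left translations. -/
def trans (H : Fin 3 → Subgroup G) : G →* Equiv.Perm (Cos H) := MulAction.toPermHom G (Cos H)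

lemma trans_pt (g : G) (a : Fin 3) (x : G) : trans H g (pt H a x) = pt H a (g * x) := rfl

lemma rel_trans {a b : Fin 3} {D : Set G} (g : G) {ω ω' : Cos H} (h : Rel H a b D ω ω') :
    Rel H a b D (trans H g ω) (trans H g ω') := by
  obtain ⟨x, d, hd, rfl, rfl⟩ := h
  exact ⟨g * x, d, hd, trans_pt g a x, by rw [trans_pt, mul_assoc]⟩

lemma rel_trans_iff {a b : Fin 3} {D : Set G} (g : G) {ω ω' : Cos H} :
    Rel H a b D (trans H g ω) (trans H g ω') ↔ Rel H a b D ω ω' := by
  constructor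
  · intro h
    have := rel_trans g⁻¹ h
    rw [← Equiv.Perm.mul_apply, ← Equiv.Perm.mul_apply, ← map_mul, inv_mul_cancel, map_one] at this
    exact this
  · exact rel_trans g

lemma pres_rel (g : G) (a b : Fin 3) (D : Set G) : Pres (trans H g) (relGraph H a b D) := by
  intro ω ω'
  unfold relGraph
  rw [SimpleGraph.fromRel_adj, SimpleGraph.fromRel_adj, rel_trans_iff, rel_trans_iff,
    (trans H g).injective.ne_iff]

lemma trans_fst (g : G) (ω : Cos H) : (trans H g ω).1 = ω.1 := rfl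

lemma pres_full (g : G) (a : Fin 3) : Pres (trans H g) (fullGraph H a) := by
  intro ω ω'
  unfold fullGraph
  rw [SimpleGraph.fromRel_adj, SimpleGraph.fromRel_adj, trans_fst, trans_fst,
    (trans H g).injective.ne_iff]

lemma trans_injective (hI : Indep H) : Function.Injective (trans H) := by
  rw [injective_iff_map_eq_one]
  intro g hg
  have h0 : trans H g (pt H 0 1) = pt H 0 1 := by rw [hg]; rfl
  have h1 : trans H g (pt H 1 1) = pt H 1 1 := by rw [hg]; rfl
  rw [trans_pt, mul_one, pt_eq, mul_one] at h0 h1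
  have := hI.h01 _ h0 h1
  simpa using this

/-- The main structural lemma. -/
theorem exists_graphs [Finite G] (H : Fin 3 → Subgroup G) (hI : Indep H) (hne : ∀ a, H a ≠ ⊤)
    (S : List G) (hS : ∀ s ∈ S, Good H s) (hHS : ∀ a, H a ≤ Subgroup.closure {s | s ∈ S})
    (hgen : Subgroup.closure {g | Good H g} = ⊤) :
    ∃ L : List (SimpleGraph (Cos H)), L.length = 11 + 4 * S.length ∧
      Nonempty (jointAut L ≃* G) := by
  set B := Subgroup.closure {s | s ∈ S} with hBdef
  have hgen' : Subgroup.closure ((B : Set G) ∪ {g | Good H g}) = ⊤ := by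
    rw [eq_top_iff, ← hgen]
    exact Subgroup.closure_mono Set.subset_union_right
  obtain ⟨d, g, hg, hirr, hgenr⟩ := exists_irred B (Good H) hgen'
  let L : List (SimpleGraph (Cos H)) :=
    [fullGraph H 0, fullGraph H 1, fullGraph H 2, relGraph H 0 1 {1}, relGraph H 0 2 {1},
      relGraph H 1 2 {1}, relGraph H 0 1 (pathSet g)] ++ four H (Set.range g) ++
      S.flatMap (fun s => four H {s})
  have hlen : L.length = 11 + 4 * S.length := by
    have h1 : (S.flatMap (fun s => four H {s})).length = 4 * S.length := by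
      clear hS hHS hgen' hg hirr hgenr hBdef B L
      induction S with
      | nil => rfl
      | cons s S ih =>
        rw [List.flatMap_cons, List.length_append, ih, List.length_cons]
        simp only [four, List.length_cons, List.length_nil]
        ring
    have h2 : (four H (Set.range g)).length = 4 := rfl
    simp only [L, List.length_append, h1, h2, List.length_cons, List.length_nil]
  have hmem : ∀ g', trans H g' ∈ jointAut L := by
    intro g' Γ hΓ
    have hcases : (∃ a, Γ = fullGraph H a) ∨ (∃ a b D, Γ = relGraph H a b D) := by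
      simp only [L, List.mem_append, List.mem_cons, List.not_mem_nil, or_false, four,
        List.mem_flatMap] at hΓ
      rcases hΓ with ((h | h | h | h | h | h | h) | (h | h | h | h)) | ⟨s, -, (h | h | h | h)⟩
      · exact Or.inl ⟨_, h⟩
      · exact Or.inl ⟨_, h⟩
      · exact Or.inl ⟨_, h⟩
      all_goals exact Or.inr ⟨_, _, _, h⟩
    rcases hcases with ⟨a, rfl⟩ | ⟨a, b, D, rfl⟩
    · exact pres_full g' a
    · exact pres_rel g' a b D
  let Θ : G →* jointAut L := (trans H).codRestrict (jointAut L) hmem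
  have hΘ : Function.Bijective Θ := by
    constructor
    · intro x y h
      apply trans_injective hI
      have := congrArg Subtype.val h
      exact this
    · rintro ⟨f, hf⟩
      have hpres : ∀ Γ ∈ L, Pres f Γ := hf
      have hfull : ∀ a, Pres f (fullGraph H a) := by
        intro a
        apply hpres
        fin_cases a <;> simp [L]
      have hfst := fst_of_full hfull hne
      have hflag := flag hI hfst (hpres _ (by simp [L])) (hpres _ (by simp [L]))
        (hpres _ (by simp [L]))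
      choose φ hφ using hflag
      have hinj : Function.Injective φ := by
        intro x y hxy
        have h0 : f (pt H 0 x) = f (pt H 0 y) := by rw [hφ, hφ, hxy]
        have h1 : f (pt H 1 x) = f (pt H 1 y) := by rw [hφ, hφ, hxy]
        have h0' := pt_eq.1 (f.injective h0)
        have h1' := pt_eq.1 (f.injective h1)
        have := hI.h01 _ h0' h1'
        rwa [inv_mul_eq_one] at this
      have hs : ∀ s ∈ S, ∀ x, φ (x * s) = φ x * s := by
        intro s hsS x
        apply single_good hI hfst hφ (hS s hsS)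
        intro Γ hΓ
        apply hpres
        simp only [L, List.mem_append, List.mem_flatMap]
        exact Or.inr ⟨s, hsS, hΓ⟩
      have hgi : ∀ i x, φ (x * g i) = φ x * g i := by
        intro i x
        apply path_good hI hfst hφ hinj (B := B) hHS hg hirr
        · intro Γ hΓ
          apply hpres
          simp only [L, List.mem_append]
          exact Or.inl (Or.inr hΓ)
        · apply hpres
          simp [L]
      -- the set of elements commuting with `φ` on the right is a subgroup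
      let T : Subgroup G :=
        { carrier := {y | ∀ x, φ (x * y) = φ x * y}
          mul_mem' := by
            intro y z hy hz x
            rw [← mul_assoc, hz, hy, mul_assoc]
          one_mem' := by
            intro x
            rw [mul_one, mul_one]
          inv_mem' := by
            intro y hy x
            have := hy (x * y⁻¹)
            rw [inv_mul_cancel_right] at this
            rw [this, mul_inv_cancel_right] }
      have hBT : B ≤ T := by
        rw [hBdef, Subgroup.closure_le]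
        intro s hsS x
        exact hs s hsS x
      have hT : T = ⊤ := by
        rw [eq_top_iff, ← hgenr, Subgroup.closure_le]
        rintro y (hy | ⟨i, rfl⟩)
        · exact hBT hy
        · intro x
          exact hgi i x
      refine ⟨φ 1, ?_⟩
      apply Subtype.ext
      apply Equiv.ext
      intro ω
      obtain ⟨x, hx⟩ := pt_surj ω
      have hxT : x ∈ T := by
        rw [hT]
        trivial
      have h1 : φ x = φ 1 * x := by
        have := hxT 1
        rwa [one_mul] at this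
      change trans H (φ 1) ω = f ω
      rw [hx, trans_pt, hφ, h1]
  exact ⟨L, hlen, ⟨(MulEquiv.ofBijective Θ hΘ).symm⟩⟩

end

end Pool.Agent.Lib.MP_9009ba_co
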