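import Mathlib
import Pool.Agent.Lib.MP_9009ba_co.GroupLemma

/-!
# Counting good elements
-/

namespace Pool.Agent.Lib.MP_9009ba_co

open Finset

universe u

section

variable {G : Type u} [Group G]

/-- If more than half of the elements lie in `A`, every element is a quotient of two elements
of `A`. -/
lemma half_lemma [Finite G] {A : Set G} (hA : Nat.card G < 2 * A.ncard) (c : G) :
    ∃ s ∈ A, s * c ∈ A := by
  by_contra hcon
  push Not at hcon
  have hdisj : Disjoint A ((fun x => x * c⁻¹) '' A) := by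
    rw [Set.disjoint_left]
    rintro x hx ⟨y, hy, rfl⟩
    apply hcon _ hx
    simpa using hy
  have h1 : (A ∪ (fun x => x * c⁻¹) '' A).ncard = A.ncard + A.ncard := by
    rw [Set.ncard_union_eq hdisj (Set.toFinite _) (Set.toFinite _),
      Set.ncard_image_of_injective _ (mul_left_injective c⁻¹)]
  have h2 : (A ∪ (fun x => x * c⁻¹) '' A).ncard ≤ Nat.card G := by
    rw [← Set.ncard_univ]
    exact Set.ncard_le_ncard (Set.subset_univ _) (Set.toFinite _)
  omega

lemma closure_of_half [Finite G] {A : Set G} (hA : Nat.card G < 2 * A.ncard) :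
    Subgroup.closure A = ⊤ := by
  rw [Subgroup.eq_top_iff']
  intro c
  obtain ⟨s, hs, hsc⟩ := half_lemma hA c
  have : c = s⁻¹ * (s * c) := by group
  rw [this]
  exact mul_mem (inv_mem (Subgroup.subset_closure hs)) (Subgroup.subset_closure hsc)

/-- The order of the centralizer. -/
noncomputable def centCard (c : G) : ℕ := Nat.card (Subgroup.centralizer {c} : Subgroup G)

lemma mem_cent {c x : G} : x ∈ (Subgroup.centralizer {c} : Subgroup G) ↔ c * x = x * c := by
  rw [Subgroup.mem_centralizer_iff]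
  simp

lemma centCard_pos [Finite G] (c : G) : 0 < centCard c := Nat.card_pos

/-- The number of elements conjugating `u` to `α` is at most the order of the centralizer. -/
lemma card_conj [Finite G] (u α : G) : {g : G | g * u * g⁻¹ = α}.ncard ≤ centCard α := by
  rcases Set.eq_empty_or_nonempty {g : G | g * u * g⁻¹ = α} with h | ⟨g₀, hg₀⟩
  · rw [h]
    simp
  · have : centCard α = ((Subgroup.centralizer {α} : Subgroup G) : Set G).ncard := rfl
    rw [this]
    apply Set.ncard_le_ncard_of_injOn (fun g => g * g₀⁻¹)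
    · intro g hg
      have hg' : g * u * g⁻¹ = α := hg
      have hg₀' : g₀ * u * g₀⁻¹ = α := hg₀
      change g * g₀⁻¹ ∈ Subgroup.centralizer {α}
      rw [mem_cent]
      calc α * (g * g₀⁻¹) = (g * u * g⁻¹) * (g * g₀⁻¹) := by rw [hg']
        _ = g * g₀⁻¹ * (g₀ * u * g₀⁻¹) := by group
        _ = g * g₀⁻¹ * α := by rw [hg₀']
    · intro x _ y _ h
      exact mul_right_cancel h

/-- The number of elements conjugating some element of `X` into `Y`. -/
lemma card_conj_sets [Finite G] (X Y : Set G) (m : ℕ) (hm : ∀ α ∈ Y, centCard α ≤ m) :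
    {g : G | ∃ u ∈ X, g * u * g⁻¹ ∈ Y}.ncard ≤ X.ncard * Y.ncard * m := by
  classical
  have := Fintype.ofFinite G
  have h1 : {g : G | ∃ u ∈ X, g * u * g⁻¹ ∈ Y} =
      ((X.toFinset ×ˢ Y.toFinset).biUnion
        (fun p => Finset.univ.filter (fun g => g * p.1 * g⁻¹ = p.2)) : Finset G) := by
    ext g
    simp only [Set.mem_ofPred_eq, coe_biUnion, mem_coe, mem_product, Set.mem_toFinset,
      coe_filter, mem_univ, true_and, Set.mem_iUnion, exists_prop, Prod.exists]
    constructor
    · rintro ⟨u, hu, hg⟩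
      exact ⟨u, _, ⟨hu, hg⟩, rfl⟩
    · rintro ⟨u, α, ⟨hu, hα⟩, rfl⟩
      exact ⟨u, hu, hα⟩
  rw [h1, Set.ncard_coe_finset]
  calc _ ≤ (X.toFinset ×ˢ Y.toFinset).card * m := by
        apply Finset.card_biUnion_le_card_mul
        intro p hp
        rw [mem_product, Set.mem_toFinset, Set.mem_toFinset] at hp
        refine le_trans ?_ (hm p.2 hp.2)
        refine le_trans ?_ (card_conj p.1 p.2)
        rw [← Set.ncard_coe_finset]
        apply le_of_eq
        congr 1
        ext g
        simp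
    _ = X.ncard * Y.ncard * m := by
        rw [card_product, Set.ncard_eq_toFinset_card', Set.ncard_eq_toFinset_card']

/-- Cardinality of a product set of two subgroups. -/
lemma ncard_mul_le [Finite G] (K L : Subgroup G) :
    {u : G | ∃ β ∈ K, ∃ γ ∈ L, u = β * γ}.ncard ≤ Nat.card K * Nat.card L := by
  have h1 : {u : G | ∃ β ∈ K, ∃ γ ∈ L, u = β * γ} =
      (fun p : G × G => p.1 * p.2) '' ((K : Set G) ×ˢ (L : Set G)) := by
    ext u
    constructor
    · rintro ⟨β, hβ, γ, hγ, rfl⟩
      exact ⟨(β, γ), ⟨hβ, hγ⟩, rfl⟩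
    · rintro ⟨⟨β, γ⟩, ⟨hβ, hγ⟩, rfl⟩
      exact ⟨β, hβ, γ, hγ, rfl⟩
  rw [h1]
  refine (Set.ncard_image_le (Set.toFinite _)).trans ?_
  rw [Set.ncard_prod]
  exact le_rfl

lemma ncard_mul_inv_le [Finite G] (K L : Subgroup G) :
    {u : G | ∃ β ∈ K, ∃ γ ∈ L, u = γ * β⁻¹}.ncard ≤ Nat.card K * Nat.card L := by
  have h1 : {u : G | ∃ β ∈ K, ∃ γ ∈ L, u = γ * β⁻¹} =
      (fun p : G × G => p.2 * p.1⁻¹) '' ((K : Set G) ×ˢ (L : Set G)) := by
    ext u
    constructor
    · rintro ⟨β, hβ, γ, hγ, rfl⟩
      exact ⟨(β, γ), ⟨hβ, hγ⟩, rfl⟩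
    · rintro ⟨⟨β, γ⟩, ⟨hβ, hγ⟩, rfl⟩
      exact ⟨β, hβ, γ, hγ, rfl⟩
  rw [h1]
  refine (Set.ncard_image_le (Set.toFinite _)).trans ?_
  rw [Set.ncard_prod]
  exact le_rfl

/-- Nontrivial elements of a subgroup of prime order have the same centralizer. -/
lemma centCard_le_of_prime [Finite G] {c α : G} {p : ℕ} (hp : p.Prime) (hc : orderOf c = p)
    (hα : α ∈ Subgroup.zpowers c) (hα1 : α ≠ 1) : centCard α ≤ centCard c := by
  have hfact : Fact p.Prime := ⟨hp⟩
  have hcard : Nat.card (Subgroup.zpowers c) = p := by rw [Nat.card_zpowers, hc]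
  have hle : Subgroup.zpowers α ≤ Subgroup.zpowers c := Subgroup.zpowers_le.2 hα
  have hdvd : Nat.card (Subgroup.zpowers α) ∣ Nat.card (Subgroup.zpowers c) :=
    Subgroup.card_dvd_of_le hle
  rw [hcard, Nat.card_zpowers] at hdvd
  have hne : orderOf α ≠ 1 := by
    intro h
    exact hα1 (orderOf_eq_one_iff.1 h)
  have horder : orderOf α = p := ((Nat.dvd_prime hp).1 hdvd).resolve_left hne
  have heq : Subgroup.zpowers α = Subgroup.zpowers c := by
    apply Subgroup.eq_of_le_of_card_ge hle
    rw [hcard, Nat.card_zpowers, horder]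
  have hcα : c ∈ Subgroup.zpowers α := by
    rw [heq]
    exact Subgroup.mem_zpowers c
  obtain ⟨n, hn⟩ := Subgroup.mem_zpowers_iff.1 hcα
  unfold centCard
  apply Nat.card_le_card_of_injective
    (fun x : (Subgroup.centralizer {α} : Subgroup G) =>
      (⟨x.1, by
        have hx := mem_cent.1 x.2
        rw [mem_cent, ← hn]
        have hcomm : Commute x.1 α := hx.symm
        exact (hcomm.zpow_right n).symm⟩ : (Subgroup.centralizer {c} : Subgroup G)))
  intro x y h
  apply Subtype.ext
  have := congrArg Subtype.val h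
  exact this

/-- Conjugate elements have centralizers of the same order. -/
lemma centCard_conj_le [Finite G] (c x : G) : centCard (x * c * x⁻¹) ≤ centCard c := by
  unfold centCard
  apply Nat.card_le_card_of_injective
    (fun y : (Subgroup.centralizer {x * c * x⁻¹} : Subgroup G) =>
      (⟨x⁻¹ * y.1 * x, by
        have hy := mem_cent.1 y.2
        rw [mem_cent]
        calc c * (x⁻¹ * y.1 * x) = x⁻¹ * (x * c * x⁻¹ * y.1) * x := by group
          _ = x⁻¹ * (y.1 * (x * c * x⁻¹)) * x := by rw [hy]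
          _ = x⁻¹ * y.1 * x * c := by group⟩ : (Subgroup.centralizer {c} : Subgroup G)))
  intro y z h
  apply Subtype.ext
  have h' := congrArg Subtype.val h
  simp only at h'
  exact mul_left_cancel (mul_right_cancel h')

end

end Pool.Agent.Lib.MP_9009ba_co
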