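import Mathlib
import Pool.Agent.Lib.MP_9009ba_co.Counting

/-!
# Admissible triples of elements of prime order
-/

namespace Pool.Agent.Lib.MP_9009ba_co

universe u

section

variable {G : Type u} [Group G]

/-- The cyclic subgroups generated by the elements of a triple. -/
def cyc (c : Fin 3 → G) : Fin 3 → Subgroup G := fun a => Subgroup.zpowers (c a)

/-- Admissible triples: distinct prime orders at least `h`, independence, and more than half of
the elements of the group are good. -/
structure Adm (h : ℕ) (c : Fin 3 → G) : Prop where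
  prime : ∀ a, (orderOf (c a)).Prime
  large : ∀ a, h ≤ orderOf (c a)
  distinct : orderOf (c 0) ≠ orderOf (c 1)
  indep : Indep (cyc c)
  half : Nat.card G < 2 * {g | Good (cyc c) g}.ncard

lemma eq_one_of_coprime {x : G} {m n : ℕ} (h : Nat.Coprime m n) (hm : x ^ m = 1)
    (hn : x ^ n = 1) : x = 1 := by
  have h1 : orderOf x ∣ m := orderOf_dvd_of_pow_eq_one hm
  have h2 : orderOf x ∣ n := orderOf_dvd_of_pow_eq_one hn
  have h3 := Nat.eq_one_of_dvd_coprimes h h1 h2
  exact orderOf_eq_one_iff.1 h3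

lemma pow_of_mem_zpowers {c x : G} (hx : x ∈ Subgroup.zpowers c) : x ^ orderOf c = 1 := by
  obtain ⟨n, rfl⟩ := Subgroup.mem_zpowers_iff.1 hx
  rw [← zpow_natCast, ← zpow_mul, mul_comm, zpow_mul, zpow_natCast, pow_orderOf_eq_one, one_zpow]

lemma commute_of_mem {c d x y : G} (h : Commute c d) (hx : x ∈ Subgroup.zpowers c)
    (hy : y ∈ Subgroup.zpowers d) : Commute x y := by
  obtain ⟨m, rfl⟩ := Subgroup.mem_zpowers_iff.1 hx
  obtain ⟨n, rfl⟩ := Subgroup.mem_zpowers_iff.1 hy
  exact (h.zpow_left m).zpow_right n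

lemma inter_trivial {c d : G} (h : Nat.Coprime (orderOf c) (orderOf d)) {g : G}
    (h1 : g ∈ Subgroup.zpowers c) (h2 : g ∈ Subgroup.zpowers d) : g = 1 :=
  eq_one_of_coprime h (pow_of_mem_zpowers h1) (pow_of_mem_zpowers h2)

lemma prod_trivial {c d e : G} (hcd : Commute c d)
    (h : Nat.Coprime (orderOf c * orderOf d) (orderOf e)) {x y g : G}
    (hx : x ∈ Subgroup.zpowers c) (hy : y ∈ Subgroup.zpowers d)
    (hg : g * (x * y) * g⁻¹ ∈ Subgroup.zpowers e) : x * y = 1 := by
  have hcomm := commute_of_mem hcd hx hy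
  have h1 : (x * y) ^ (orderOf c * orderOf d) = 1 := by
    rw [hcomm.mul_pow, pow_mul, pow_of_mem_zpowers hx, one_pow, mul_comm (orderOf c), pow_mul,
      pow_of_mem_zpowers hy, one_pow, one_mul]
  have h2 : (x * y) ^ orderOf e = 1 := by
    have h3 := pow_of_mem_zpowers hg
    rw [conj_pow, mul_inv_eq_one] at h3
    simpa using h3
  exact eq_one_of_coprime h h1 h2

lemma adm_of_commute [Finite G] {h : ℕ} {c : Fin 3 → G} (prime : ∀ a, (orderOf (c a)).Prime)
    (large : ∀ a, h ≤ orderOf (c a)) (d01 : orderOf (c 0) ≠ orderOf (c 1))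
    (d02 : orderOf (c 0) ≠ orderOf (c 2)) (d12 : orderOf (c 1) ≠ orderOf (c 2))
    (c01 : Commute (c 0) (c 1)) (c02 : Commute (c 0) (c 2)) (c12 : Commute (c 1) (c 2)) :
    Adm h c := by
  have k01 : Nat.Coprime (orderOf (c 0)) (orderOf (c 1)) :=
    (Nat.coprime_primes (prime 0) (prime 1)).2 d01
  have k02 : Nat.Coprime (orderOf (c 0)) (orderOf (c 2)) :=
    (Nat.coprime_primes (prime 0) (prime 2)).2 d02
  have k12 : Nat.Coprime (orderOf (c 1)) (orderOf (c 2)) :=
    (Nat.coprime_primes (prime 1) (prime 2)).2 d12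
  have hgood : ∀ g, Good (cyc c) g := by
    intro g
    refine ⟨fun β hβ γ hγ hg => ?_, fun α hα γ hγ hg => ?_⟩
    · exact prod_trivial c12 (Nat.Coprime.mul_left k01.symm k02.symm) hβ hγ hg
    · exact prod_trivial c02 (Nat.Coprime.mul_left k01 k12.symm) hα hγ hg
  refine ⟨prime, large, d01, ⟨?_, ?_, ?_, ?_⟩, ?_⟩
  · intro g h1 h2
    exact inter_trivial k01 h1 h2
  · intro g h1 h2
    exact inter_trivial k02 h1 h2
  · intro g h1 h2
    exact inter_trivial k12 h1 h2
  · intro α hα β hβ hg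
    apply prod_trivial (g := 1) c01 (Nat.Coprime.mul_left k02 k12) hα hβ
    rw [one_mul, inv_one, mul_one]
    exact hg
  · have : {g | Good (cyc c) g} = Set.univ := by
      ext g
      simp [hgood g]
    rw [this, Set.ncard_univ]
    have := Nat.card_pos (α := G)
    omega

/-- The elements for which the first goodness condition fails. -/
lemma bad_count [Finite G] {c d e : G} {m : ℕ} (hp : (orderOf c).Prime)
    (hm : m = orderOf d * orderOf e * orderOf c * centCard c) :
    {g : G | ∃ u ∈ {u : G | ∃ β ∈ Subgroup.zpowers d, ∃ γ ∈ Subgroup.zpowers e, u = β * γ},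
      g * u * g⁻¹ ∈ {α : G | α ∈ Subgroup.zpowers c ∧ α ≠ 1}}.ncard ≤ m := by
  refine (card_conj_sets _ _ (centCard c) ?_).trans ?_
  · intro α hα
    exact centCard_le_of_prime hp rfl hα.1 hα.2
  · rw [hm]
    apply Nat.mul_le_mul_right
    apply Nat.mul_le_mul
    · refine (ncard_mul_le _ _).trans ?_
      rw [Nat.card_zpowers, Nat.card_zpowers]
    · have : {α : G | α ∈ Subgroup.zpowers c ∧ α ≠ 1}.ncard ≤
          ((Subgroup.zpowers c : Subgroup G) : Set G).ncard := by
        apply Set.ncard_le_ncard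
        · intro α hα
          exact hα.1
        · exact Set.toFinite _
      refine this.trans ?_
      rw [← Nat.card_zpowers]
      exact le_rfl

lemma good_count [Finite G] {c : Fin 3 → G} (prime : ∀ a, (orderOf (c a)).Prime)
    (h0 : 8 * (orderOf (c 0) * orderOf (c 1) * orderOf (c 2)) * centCard (c 0) ≤ Nat.card G)
    (h1 : 8 * (orderOf (c 0) * orderOf (c 1) * orderOf (c 2)) * centCard (c 1) ≤ Nat.card G) :
    Nat.card G < 2 * {g | Good (cyc c) g}.ncard := by
  have b0 := bad_count (c := c 0) (d := c 1) (e := c 2) (prime 0) rfl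
  have b1 := bad_count (c := c 1) (d := c 0) (e := c 2) (prime 1) rfl
  set B0 := {g : G | ∃ u ∈ {u : G | ∃ β ∈ Subgroup.zpowers (c 1), ∃ γ ∈ Subgroup.zpowers (c 2),
    u = β * γ}, g * u * g⁻¹ ∈ {α : G | α ∈ Subgroup.zpowers (c 0) ∧ α ≠ 1}} with hB0
  set B1 := {g : G | ∃ u ∈ {u : G | ∃ β ∈ Subgroup.zpowers (c 0), ∃ γ ∈ Subgroup.zpowers (c 2),
    u = β * γ}, g * u * g⁻¹ ∈ {α : G | α ∈ Subgroup.zpowers (c 1) ∧ α ≠ 1}} with hB1
  have hcover : (Set.univ : Set G) ⊆ {g | Good (cyc c) g} ∪ (B0 ∪ B1) := by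
    intro g _
    by_cases hg : Good (cyc c) g
    · exact Or.inl hg
    · right
      unfold Good at hg
      rw [not_and_or] at hg
      rcases hg with hg | hg
      · left
        push Not at hg
        obtain ⟨β, hβ, γ, hγ, hmem, hne⟩ := hg
        refine ⟨β * γ, ⟨β, hβ, γ, hγ, rfl⟩, hmem, ?_⟩
        intro h
        apply hne
        rw [mul_inv_eq_one] at h
        simpa using h
      · right
        push Not at hg
        obtain ⟨β, hβ, γ, hγ, hmem, hne⟩ := hg
        refine ⟨β * γ, ⟨β, hβ, γ, hγ, rfl⟩, hmem, ?_⟩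
        intro h
        apply hne
        rw [mul_inv_eq_one] at h
        simpa using h
  have h2 : Nat.card G ≤ {g | Good (cyc c) g}.ncard + (B0.ncard + B1.ncard) := by
    rw [← Set.ncard_univ]
    refine (Set.ncard_le_ncard hcover (Set.toFinite _)).trans ?_
    refine (Set.ncard_union_le _ _).trans ?_
    have := Set.ncard_union_le B0 B1
    omega
  have h3 : 8 * B0.ncard ≤ Nat.card G := by
    refine le_trans ?_ h0
    calc 8 * B0.ncard ≤ 8 * (orderOf (c 1) * orderOf (c 2) * orderOf (c 0) * centCard (c 0)) :=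
          Nat.mul_le_mul_left 8 b0
      _ = 8 * (orderOf (c 0) * orderOf (c 1) * orderOf (c 2)) * centCard (c 0) := by ring
  have h4 : 8 * B1.ncard ≤ Nat.card G := by
    refine le_trans ?_ h1
    calc 8 * B1.ncard ≤ 8 * (orderOf (c 0) * orderOf (c 2) * orderOf (c 1) * centCard (c 1)) :=
          Nat.mul_le_mul_left 8 b1
      _ = 8 * (orderOf (c 0) * orderOf (c 1) * orderOf (c 2)) * centCard (c 1) := by ring
  have h5 : 0 < Nat.card G := Nat.card_pos
  omega

lemma exists_conj [Finite G] {c d e : G} (hp : (orderOf c).Prime)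
    (hde : Nat.Coprime (orderOf d) (orderOf e))
    (h0 : 8 * (orderOf c * orderOf d * orderOf e) * centCard c ≤ Nat.card G) :
    ∃ y : G, ∀ α ∈ Subgroup.zpowers (y⁻¹ * c * y), ∀ β ∈ Subgroup.zpowers d,
      α * β ∈ Subgroup.zpowers e → α * β = 1 := by
  set B := {y : G | ∃ v ∈ {v : G | ∃ β ∈ Subgroup.zpowers d, ∃ γ ∈ Subgroup.zpowers e,
    v = γ * β⁻¹}, y * v * y⁻¹ ∈ {α : G | α ∈ Subgroup.zpowers c ∧ α ≠ 1}} with hB
  have hcard : B.ncard ≤ orderOf d * orderOf e * orderOf c * centCard c := by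
    refine (card_conj_sets _ _ (centCard c) ?_).trans ?_
    · intro α hα
      exact centCard_le_of_prime hp rfl hα.1 hα.2
    · apply Nat.mul_le_mul_right
      apply Nat.mul_le_mul
      · refine (ncard_mul_inv_le _ _).trans ?_
        rw [Nat.card_zpowers, Nat.card_zpowers]
      · have : {α : G | α ∈ Subgroup.zpowers c ∧ α ≠ 1}.ncard ≤
            ((Subgroup.zpowers c : Subgroup G) : Set G).ncard := by
          apply Set.ncard_le_ncard
          · intro α hα
            exact hα.1
          · exact Set.toFinite _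
        refine this.trans ?_
        rw [← Nat.card_zpowers]
        exact le_rfl
  have hlt : B.ncard < Nat.card G := by
    have h5 : 0 < Nat.card G := Nat.card_pos
    have : 8 * B.ncard ≤ Nat.card G := by
      refine le_trans ?_ h0
      calc 8 * B.ncard ≤ 8 * (orderOf d * orderOf e * orderOf c * centCard c) :=
            Nat.mul_le_mul_left 8 hcard
        _ = 8 * (orderOf c * orderOf d * orderOf e) * centCard c := by ring
    omega
  obtain ⟨y, hy⟩ : ∃ y, y ∉ B := by
    by_contra hcon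
    push Not at hcon
    have : B = Set.univ := Set.eq_univ_of_forall hcon
    rw [this, Set.ncard_univ] at hlt
    exact lt_irrefl _ hlt
  refine ⟨y, fun α hα β hβ hmem => ?_⟩
  by_contra hne
  apply hy
  obtain ⟨n, hn⟩ := Subgroup.mem_zpowers_iff.1 hα
  have hα' : α = y⁻¹ * c ^ n * y := by
    rw [← hn]
    have := conj_zpow (i := n) (a := y⁻¹) (b := c)
    rw [inv_inv] at this
    exact this
  refine ⟨α * β * β⁻¹, ⟨β, hβ, α * β, hmem, rfl⟩, ?_, ?_⟩
  · rw [mul_inv_cancel_right, hα']
    have : y * (y⁻¹ * c ^ n * y) * y⁻¹ = c ^ n := by group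
    rw [this]
    exact Subgroup.zpow_mem _ (Subgroup.mem_zpowers c) n
  · rw [mul_inv_cancel_right]
    intro h
    have hα1 : α = 1 := by
      rw [mul_inv_eq_one] at h
      simpa using h
    apply hne
    rw [hα1, one_mul] at hmem ⊢
    exact inter_trivial hde hβ hmem

lemma adm_of_large [Finite G] {h : ℕ} {c : Fin 3 → G} (prime : ∀ a, (orderOf (c a)).Prime)
    (large : ∀ a, h ≤ orderOf (c a)) (d01 : orderOf (c 0) ≠ orderOf (c 1))
    (d02 : orderOf (c 0) ≠ orderOf (c 2)) (d12 : orderOf (c 1) ≠ orderOf (c 2))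
    (h0 : 8 * (orderOf (c 0) * orderOf (c 1) * orderOf (c 2)) * centCard (c 0) ≤ Nat.card G)
    (h1 : 8 * (orderOf (c 0) * orderOf (c 1) * orderOf (c 2)) * centCard (c 1) ≤ Nat.card G) :
    ∃ c' : Fin 3 → G, Adm h c' := by
  have k01 : Nat.Coprime (orderOf (c 0)) (orderOf (c 1)) :=
    (Nat.coprime_primes (prime 0) (prime 1)).2 d01
  have k02 : Nat.Coprime (orderOf (c 0)) (orderOf (c 2)) :=
    (Nat.coprime_primes (prime 0) (prime 2)).2 d02
  have k12 : Nat.Coprime (orderOf (c 1)) (orderOf (c 2)) :=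
    (Nat.coprime_primes (prime 1) (prime 2)).2 d12
  obtain ⟨y, hy⟩ := exists_conj (prime 0) k12 h0
  have hord : orderOf (y⁻¹ * c 0 * y) = orderOf (c 0) := by
    have := MulAut.conj y⁻¹ |>.orderOf_eq (c 0)
    rw [← this]
    simp
  let c' : Fin 3 → G := ![y⁻¹ * c 0 * y, c 1, c 2]
  have e0 : orderOf (c' 0) = orderOf (c 0) := hord
  have e1 : orderOf (c' 1) = orderOf (c 1) := rfl
  have e2 : orderOf (c' 2) = orderOf (c 2) := rfl
  have hall : ∀ a, orderOf (c' a) = orderOf (c a) := by
    intro a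
    fin_cases a
    · exact e0
    · exact e1
    · exact e2
  have prime' : ∀ a, (orderOf (c' a)).Prime := fun a => by
    rw [hall a]
    exact prime a
  have hcent : centCard (c' 0) ≤ centCard (c 0) := by
    have := centCard_conj_le (c 0) y⁻¹
    rw [inv_inv] at this
    exact this
  refine ⟨c', prime', fun a => by rw [hall a]; exact large a, ?_, ⟨?_, ?_, ?_, ?_⟩, ?_⟩
  · rw [e0, e1]
    exact d01
  · intro g g1 g2
    exact inter_trivial (by rw [e0, e1]; exact k01) g1 g2
  · intro g g1 g2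
    exact inter_trivial (by rw [e0, e2]; exact k02) g1 g2
  · intro g g1 g2
    exact inter_trivial (by rw [e1, e2]; exact k12) g1 g2
  · exact hy
  · apply good_count prime'
    · rw [e0, e1, e2]
      exact (Nat.mul_le_mul_left _ hcent).trans h0
    · rw [e0, e1, e2]
      exact h1

end

end Pool.Agent.Lib.MP_9009ba_co
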