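import Mathlib
import Pool.Agent.Lib.MP_9009ba_co.Triples

/-!
# Groups with many prime divisors have admissible triples
-/

namespace Pool.Agent.Lib.MP_9009ba_co

universe u

lemma select1 {n : ℕ} (P : Finset ℕ) (h : n + 1 ≤ P.card) :
    ∃ q ∈ P, ∃ P' ⊆ P, n ≤ P'.card ∧ ∀ p ∈ P', q < p := by
  have hne : P.Nonempty := Finset.card_pos.1 (by omega)
  refine ⟨P.min' hne, P.min'_mem hne, P.erase (P.min' hne), Finset.erase_subset _ _, ?_, ?_⟩
  · rw [Finset.card_erase_of_mem (P.min'_mem hne)]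
    omega
  · intro p hp
    rw [Finset.mem_erase] at hp
    exact lt_of_le_of_ne (P.min'_le p hp.2) (Ne.symm hp.1)

lemma select3 {n : ℕ} (P : Finset ℕ) (h : n + 3 ≤ P.card) :
    ∃ q1 ∈ P, ∃ q2 ∈ P, ∃ q3 ∈ P, q1 < q2 ∧ q2 < q3 ∧
      ∃ P' ⊆ P, n ≤ P'.card ∧ ∀ p ∈ P', q3 < p := by
  obtain ⟨q1, h1, P1, hP1, c1, l1⟩ := select1 (n := n + 2) P h
  obtain ⟨q2, h2, P2, hP2, c2, l2⟩ := select1 (n := n + 1) P1 c1
  obtain ⟨q3, h3, P3, hP3, c3, l3⟩ := select1 (n := n) P2 c2
  exact ⟨q1, h1, q2, hP1 h2, q3, hP1 (hP2 h3), l1 q2 h2, l2 q3 h3, P3,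
    (hP3.trans hP2).trans hP1, c3, l3⟩

/-- At most three large primes are lost when passing to a subgroup of small index. -/
lemma keep_primes {N C m q : ℕ} (hN : N = C * m) (hm : m < (q + 1) ^ 4) (hpos : 0 < m)
    (T : Finset ℕ) (hT : ∀ p ∈ T, p.Prime ∧ q < p ∧ p ∣ N) :
    ∃ T' ⊆ T, T.card ≤ T'.card + 3 ∧ ∀ p ∈ T', p ∣ C := by
  classical
  refine ⟨T.filter (fun p => p ∣ C), Finset.filter_subset _ _, ?_, ?_⟩
  · have hsum := Finset.card_filter_add_card_filter_not (s := T) (p := fun p => p ∣ C)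
    set B := T.filter (fun p => ¬ p ∣ C) with hB
    have hdiv : ∏ p ∈ B, p ∣ m := by
      apply Finset.prod_primes_dvd
      · intro p hp
        exact (hT p (Finset.mem_of_mem_filter p hp)).1.prime
      · intro p hp
        rw [hB, Finset.mem_filter] at hp
        obtain ⟨hpr, -, hpN⟩ := hT p hp.1
        rw [hN] at hpN
        exact (hpr.dvd_mul.1 hpN).resolve_left hp.2
    have hle : (q + 1) ^ B.card ≤ ∏ p ∈ B, p := by
      apply Finset.pow_card_le_prod
      intro p hp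
      exact (hT p (Finset.mem_of_mem_filter p hp)).2.1
    have h1 : (q + 1) ^ B.card < (q + 1) ^ 4 :=
      lt_of_le_of_lt (hle.trans (Nat.le_of_dvd hpos hdiv)) hm
    have h2 : B.card < 4 := by
      by_contra hcon
      push Not at hcon
      have := Nat.pow_le_pow_right (Nat.succ_pos q) hcon
      exact absurd h1 (not_lt.2 this)
    omega
  · intro p hp
    exact (Finset.mem_filter.1 hp).2

section

variable {G : Type u} [Group G]

lemma two_big [Finite G] {h : ℕ} {c : Fin 3 → G} (prime : ∀ a, (orderOf (c a)).Prime)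
    (large : ∀ a, h ≤ orderOf (c a)) (d01 : orderOf (c 0) ≠ orderOf (c 1))
    (d02 : orderOf (c 0) ≠ orderOf (c 2)) (d12 : orderOf (c 1) ≠ orderOf (c 2))
    (hno : ¬ ∃ c' : Fin 3 → G, Adm h c') :
    ∃ a, Nat.card G < 8 * (orderOf (c 0) * orderOf (c 1) * orderOf (c 2)) * centCard (c a) := by
  by_contra hcon
  push Not at hcon
  exact hno (adm_of_large prime large d01 d02 d12 (hcon 0) (hcon 1))

lemma index_lt [Finite G] {c : G} {q1 q2 q3 : ℕ} (h12 : q1 < q2) (h23 : q2 < q3) (h8 : 8 ≤ q3)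
    (h : Nat.card G < 8 * (q1 * q2 * q3) * centCard c) :
    (Subgroup.centralizer {c} : Subgroup G).index < (q3 + 1) ^ 4 := by
  have h1 := (Subgroup.centralizer {c} : Subgroup G).card_mul_index
  have hpos := centCard_pos c
  unfold centCard at h hpos
  set C := Nat.card (Subgroup.centralizer {c} : Subgroup G) with hC
  set m := (Subgroup.centralizer {c} : Subgroup G).index with hm
  have h2 : m < 8 * (q1 * q2 * q3) := by
    rw [← h1] at h
    have h' : C * m < C * (8 * (q1 * q2 * q3)) := by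
      calc C * m < 8 * (q1 * q2 * q3) * C := h
        _ = C * (8 * (q1 * q2 * q3)) := by ring
    exact Nat.lt_of_mul_lt_mul_left h'
  have h3 : 8 * (q1 * q2 * q3) ≤ (q3 + 1) * ((q3 + 1) * (q3 + 1) * (q3 + 1)) := by
    apply Nat.mul_le_mul (by omega)
    apply Nat.mul_le_mul _ (by omega)
    exact Nat.mul_le_mul (by omega) (by omega)
  calc m < 8 * (q1 * q2 * q3) := h2
    _ ≤ (q3 + 1) * ((q3 + 1) * (q3 + 1) * (q3 + 1)) := h3
    _ = (q3 + 1) ^ 4 := by ring

lemma cauchy_sub [Finite G] (K : Subgroup G) {p : ℕ} (hp : p.Prime) (h : p ∣ Nat.card K) :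
    ∃ c ∈ K, orderOf c = p := by
  have : Fact p.Prime := ⟨hp⟩
  obtain ⟨x, hx⟩ := exists_prime_orderOf_dvd_card' (G := K) p h
  exact ⟨x.1, x.2, by rw [Subgroup.orderOf_coe]; exact hx⟩

lemma stage [Finite G] {h : ℕ} (h8 : 8 ≤ h) (hno : ¬ ∃ c' : Fin 3 → G, Adm h c')
    (K : Subgroup G) {n : ℕ} (P : Finset ℕ) (hcard : n + 3 ≤ P.card)
    (hP : ∀ p ∈ P, p.Prime ∧ h ≤ p ∧ p ∣ Nat.card K) :
    ∃ c ∈ K, orderOf c ∈ P ∧ ∃ q, orderOf c ≤ q ∧
      (Subgroup.centralizer {c} : Subgroup G).index < (q + 1) ^ 4 ∧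
      ∃ P' ⊆ P, n ≤ P'.card ∧ ∀ p ∈ P', q < p := by
  obtain ⟨q1, hq1, q2, hq2, q3, hq3, h12, h23, P', hP', hc', hl⟩ := select3 P hcard
  obtain ⟨c1, hc1, o1⟩ := cauchy_sub K (hP q1 hq1).1 (hP q1 hq1).2.2
  obtain ⟨c2, hc2, o2⟩ := cauchy_sub K (hP q2 hq2).1 (hP q2 hq2).2.2
  obtain ⟨c3, hc3, o3⟩ := cauchy_sub K (hP q3 hq3).1 (hP q3 hq3).2.2
  let c : Fin 3 → G := ![c1, c2, c3]
  have e0 : orderOf (c 0) = q1 := o1
  have e1 : orderOf (c 1) = q2 := o2
  have e2 : orderOf (c 2) = q3 := o3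
  have prime : ∀ a, (orderOf (c a)).Prime := by
    intro a
    fin_cases a
    · exact e0 ▸ (hP q1 hq1).1
    · exact e1 ▸ (hP q2 hq2).1
    · exact e2 ▸ (hP q3 hq3).1
  have large : ∀ a, h ≤ orderOf (c a) := by
    intro a
    fin_cases a
    · exact e0 ▸ (hP q1 hq1).2.1
    · exact e1 ▸ (hP q2 hq2).2.1
    · exact e2 ▸ (hP q3 hq3).2.1
  obtain ⟨a, ha⟩ := two_big prime large (by omega) (by omega) (by omega) hno
  rw [e0, e1, e2] at ha
  have h8' : 8 ≤ q3 := h8.trans (hP q3 hq3).2.1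
  refine ⟨c a, ?_, ?_, q3, ?_, index_lt h12 h23 h8' ha, P', hP', hc', hl⟩
  · fin_cases a
    · exact hc1
    · exact hc2
    · exact hc3
  · fin_cases a
    · exact e0 ▸ hq1
    · exact e1 ▸ hq2
    · exact e2 ▸ hq3
  · fin_cases a
    · change orderOf (c 0) ≤ q3
      omega
    · change orderOf (c 1) ≤ q3
      omega
    · change orderOf (c 2) ≤ q3
      omega

/-- Finite groups whose order has at least `13` prime divisors `≥ h` have admissible triples. -/
theorem exists_adm [Finite G] {h : ℕ} (h8 : 8 ≤ h)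
    (hcard : 13 ≤ ((Nat.card G).primeFactors.filter (fun p => h ≤ p)).card) :
    ∃ c : Fin 3 → G, Adm h c := by
  by_contra hno
  -- first stage
  have hP : ∀ p ∈ (Nat.card G).primeFactors.filter (fun p => h ≤ p),
      p.Prime ∧ h ≤ p ∧ p ∣ Nat.card (⊤ : Subgroup G) := by
    intro p hp
    rw [Finset.mem_filter, Nat.mem_primeFactors] at hp
    rw [Subgroup.card_top]
    exact ⟨hp.1.1, hp.2, hp.1.2.1⟩
  obtain ⟨c, -, hc, q, hcq, hidx, P', hP', hn', hl⟩ :=
    stage h8 hno ⊤ (n := 10) _ hcard hP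
  obtain ⟨T, hTP, hTcard, hTdvd⟩ := keep_primes (N := Nat.card G)
    (C := Nat.card (Subgroup.centralizer {c} : Subgroup G))
    (m := (Subgroup.centralizer {c} : Subgroup G).index) (q := q)
    (Subgroup.card_mul_index _).symm hidx (Nat.pos_of_ne_zero Subgroup.index_ne_zero_of_finite) P'
    (by
      intro p hp
      have := hP p (hP' hp)
      rw [Subgroup.card_top] at this
      exact ⟨this.1, hl p hp, this.2.2⟩)
  -- second stage
  have hP2 : ∀ p ∈ T, p.Prime ∧ h ≤ p ∧
      p ∣ Nat.card (Subgroup.centralizer {c} : Subgroup G) := by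
    intro p hp
    have := hP p (hP' (hTP hp))
    exact ⟨this.1, this.2.1, hTdvd p hp⟩
  obtain ⟨d, hdK, hd, q', hdq, hidx', P'', hP'', hn'', hl'⟩ :=
    stage h8 hno (Subgroup.centralizer {c}) (n := 4) T (by omega) hP2
  set K : Subgroup G := Subgroup.centralizer {c} with hK
  set D : Subgroup G := Subgroup.centralizer {d} with hD
  have hrel : Nat.card K = Nat.card (D ⊓ K : Subgroup G) * D.relIndex K := by
    have k1 := (D ⊓ K).card_mul_index
    have k2 := K.card_mul_index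
    have k3 := Subgroup.relIndex_mul_index (H := D ⊓ K) (K := K) inf_le_right
    rw [Subgroup.inf_relIndex_right] at k3
    have k4 : 0 < K.index := Nat.pos_of_ne_zero Subgroup.index_ne_zero_of_finite
    have k5 : Nat.card K * K.index =
        Nat.card (D ⊓ K : Subgroup G) * D.relIndex K * K.index := by
      rw [k2, ← k1, ← k3]
      ring
    exact Nat.eq_of_mul_eq_mul_right k4 k5
  have hrelpos : 0 < D.relIndex K := by
    rcases Nat.eq_zero_or_pos (D.relIndex K) with h0 | h0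
    · rw [h0, mul_zero] at hrel
      have : 0 < Nat.card K := Nat.card_pos
      omega
    · exact h0
  have hrelle : D.relIndex K ≤ D.index := by
    rw [← Subgroup.relIndex_top_right (H := D)]
    apply Subgroup.relIndex_le_of_le_right le_top
    rw [Subgroup.relIndex_top_right]
    exact Subgroup.index_ne_zero_of_finite
  obtain ⟨T', hTP', hTcard', hTdvd'⟩ := keep_primes (N := Nat.card K)
    (C := Nat.card (D ⊓ K : Subgroup G)) (m := D.relIndex K) (q := q')
    hrel (lt_of_le_of_lt hrelle hidx') hrelpos P''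
    (by
      intro p hp
      have := hP2 p (hP'' hp)
      exact ⟨this.1, hl' p hp, this.2.2⟩)
  obtain ⟨p, hp⟩ : T'.Nonempty := Finset.card_pos.1 (by omega)
  have hp2 := hP2 p (hP'' (hTP' hp))
  obtain ⟨e, heK, he⟩ := cauchy_sub (D ⊓ K) hp2.1 (hTdvd' p hp)
  -- the three elements commute
  have cdcomm : Commute c d := mem_cent.1 hdK
  have cecomm : Commute c e := mem_cent.1 heK.2
  have decomm : Commute d e := mem_cent.1 heK.1
  have hc3 := hP (orderOf c) hc
  have hd3 := hP2 (orderOf d) hd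
  have l1 : q < orderOf d := hl _ (hTP hd)
  have l2 : q' < p := hl' p (hTP' hp)
  apply hno
  refine ⟨![c, d, e], adm_of_commute ?_ ?_ ?_ ?_ ?_ cdcomm cecomm decomm⟩
  · intro a
    fin_cases a
    · exact hc3.1
    · exact hd3.1
    · change (orderOf e).Prime
      rw [he]
      exact hp2.1
  · intro a
    fin_cases a
    · exact hc3.2.1
    · exact hd3.2.1
    · change h ≤ orderOf e
      rw [he]
      exact hp2.2.1
  · change orderOf c ≠ orderOf d
    omega
  · change orderOf c ≠ orderOf e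
    omega
  · change orderOf d ≠ orderOf e
    omega

end

end Pool.Agent.Lib.MP_9009ba_co
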