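import Mathlib
import Pool.Agent.Lib.MP_9009ba_co.Primes

/-!
# From admissible data to small graphs
-/

namespace Pool.Agent.Lib.MP_9009ba_co

universe u v

/-- Isomorphic graphs have isomorphic automorphism groups. -/
def autCongr {V : Type u} {W : Type v} {X : SimpleGraph V} {Y : SimpleGraph W} (φ : X ≃g Y) :
    (X ≃g X) ≃* (Y ≃g Y) where
  toFun f := (φ.symm.trans f).trans φ
  invFun g := (φ.trans g).trans φ.symm
  left_inv f := by
    apply RelIso.ext
    intro x
    simp
  right_inv g := by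
    apply RelIso.ext
    intro x
    simp
  map_mul' f g := by
    apply RelIso.ext
    intro x
    simp

/-- A graph on a finite type can be moved to `Fin n`. -/
lemma exists_fin {V : Type u} [Finite V] (X : SimpleGraph V) {n : ℕ} (hn : Nat.card V = n) :
    ∃ Y : SimpleGraph (Fin n), Nonempty ((X ≃g X) ≃* (Y ≃g Y)) := by
  subst hn
  obtain ⟨e⟩ : Nonempty (V ≃ Fin (Nat.card V)) := ⟨Finite.equivFin V⟩
  exact ⟨X.map e.toEmbedding, ⟨autCongr (SimpleGraph.Iso.map e X)⟩⟩

section

variable {G : Type u} [Group G]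

lemma card_cos [Finite G] (H : Fin 3 → Subgroup G) {h : ℕ} (hH : ∀ a, h ≤ Nat.card (H a)) :
    h * Nat.card (Cos H) ≤ 3 * Nat.card G := by
  rw [Nat.card_sigma, Finset.mul_sum]
  have h1 : ∀ a : Fin 3, h * Nat.card (G ⧸ H a) ≤ Nat.card G := by
    intro a
    rw [Subgroup.card_eq_card_quotient_mul_card_subgroup (H a), mul_comm]
    exact Nat.mul_le_mul_left _ (hH a)
  calc ∑ a : Fin 3, h * Nat.card (G ⧸ H a) ≤ ∑ _a : Fin 3, Nat.card G :=
        Finset.sum_le_sum (fun a _ => h1 a)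
    _ = 3 * Nat.card G := by simp

/-- The graph produced by the structural lemma, with a bound for its number of vertices. -/
theorem exists_graph_of_data [Finite G] (H : Fin 3 → Subgroup G) (hI : Indep H)
    (hne : ∀ a, H a ≠ ⊤) (S : List G) (hS : ∀ s ∈ S, Good H s)
    (hHS : ∀ a, H a ≤ Subgroup.closure {s | s ∈ S})
    (hgen : Subgroup.closure {g | Good H g} = ⊤) :
    ∃ Y : SimpleGraph (Fin ((11 + 4 * S.length) * Nat.card (Cos H) +
      (2 * (11 + 4 * S.length) + 1))), Nonempty ((Y ≃g Y) ≃* G) := by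
  obtain ⟨L, hlen, ⟨e⟩⟩ := exists_graphs H hI hne S hS hHS hgen
  have hne' : Nonempty (Cos H) := ⟨pt H 0 1⟩
  have hcard : Nat.card (Vtx (Cos H) L.length) =
      (11 + 4 * S.length) * Nat.card (Cos H) + (2 * (11 + 4 * S.length) + 1) := by
    rw [Nat.card_sum, Nat.card_prod, Nat.card_fin, Nat.card_fin, hlen]
  obtain ⟨Y, ⟨e'⟩⟩ := exists_fin (combL L) hcard
  exact ⟨Y, ⟨e'.symm.trans ((combEquiv L (by omega)).symm.trans e)⟩⟩

end

end Pool.Agent.Lib.MP_9009ba_co
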