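import Mathlib
import Pool.Agent.Lib.MP_9009ba_co.Assembly

/-!
# Groups containing a large elementary abelian subgroup
-/

namespace Pool.Agent.Lib.MP_9009ba_co

universe u

section

variable {G : Type u} [Group G] {p : ℕ} [Fact p.Prime] {R K : ℕ}

/-- The group `(Z/p)^R` written additively. -/
abbrev EE (p R : ℕ) : Type := Fin R → ZMod p

/-- Index set of the `3K` vectors. -/
abbrev JJ (K : ℕ) : Type := Fin 3 × Fin K

/-- Linear combinations of the vectors of index `a`. -/
def comb3 (a : Fin 3) (c : Fin K → ZMod p) (t : JJ K → EE p R) : EE p R :=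
  ∑ i, c i • t (a, i)

lemma comb3_add (a : Fin 3) (c c' : Fin K → ZMod p) (t : JJ K → EE p R) :
    comb3 a (c + c') t = comb3 a c t + comb3 a c' t := by
  simp [comb3, add_smul, Finset.sum_add_distrib]

lemma comb3_neg (a : Fin 3) (c : Fin K → ZMod p) (t : JJ K → EE p R) :
    comb3 a (-c) t = -comb3 a c t := by
  simp [comb3]

lemma comb3_zero (a : Fin 3) (t : JJ K → EE p R) : comb3 a 0 t = 0 := by
  simp [comb3]

/-- The subgroups attached to a tuple of vectors. -/
def sub3 (ι : Multiplicative (EE p R) →* G) (t : JJ K → EE p R) (a : Fin 3) : Subgroup G where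
  carrier := {g | ∃ c : Fin K → ZMod p, g = ι (Multiplicative.ofAdd (comb3 a c t))}
  mul_mem' := by
    rintro x y ⟨c, rfl⟩ ⟨c', rfl⟩
    exact ⟨c + c', by rw [comb3_add, ofAdd_add, map_mul]⟩
  one_mem' := ⟨0, by rw [comb3_zero, ofAdd_zero, map_one]⟩
  inv_mem' := by
    rintro x ⟨c, rfl⟩
    exact ⟨-c, by rw [comb3_neg, ofAdd_neg, map_inv]⟩

lemma mem_sub3 {ι : Multiplicative (EE p R) →* G} {t : JJ K → EE p R} {a : Fin 3} {g : G} :
    g ∈ sub3 ι t a ↔ ∃ c : Fin K → ZMod p, g = ι (Multiplicative.ofAdd (comb3 a c t)) := Iff.rfl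

/-- Linear independence of the tuple. -/
def Lin (t : JJ K → EE p R) : Prop := ∀ c : JJ K → ZMod p, ∑ j, c j • t j = 0 → c = 0

lemma sum_split (c0 c1 c2 : Fin K → ZMod p) (t : JJ K → EE p R) :
    ∑ j : JJ K, (![c0, c1, c2] j.1 j.2) • t j =
      comb3 0 c0 t + comb3 1 c1 t + comb3 2 c2 t := by
  rw [Fintype.sum_prod_type, Fin.sum_univ_three]
  rfl

lemma lin_apply {t : JJ K → EE p R} (ht : Lin t) {c0 c1 c2 : Fin K → ZMod p}
    (h : comb3 0 c0 t + comb3 1 c1 t + comb3 2 c2 t = 0) : c0 = 0 ∧ c1 = 0 ∧ c2 = 0 := by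
  have h1 := ht (fun j => ![c0, c1, c2] j.1 j.2) (by rw [sum_split]; exact h)
  refine ⟨?_, ?_, ?_⟩
  · ext i
    have := congrFun h1 (0, i)
    exact this
  · ext i
    have := congrFun h1 (1, i)
    exact this
  · ext i
    have := congrFun h1 (2, i)
    exact this

lemma indep_of_lin {ι : Multiplicative (EE p R) →* G} (hι : Function.Injective ι)
    {t : JJ K → EE p R} (ht : Lin t) : Indep (sub3 ι t) := by
  have hinj : ∀ x y : EE p R, ι (Multiplicative.ofAdd x) = ι (Multiplicative.ofAdd y) → x = y := by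
    intro x y h
    exact Multiplicative.ofAdd.injective (hι h)
  refine ⟨?_, ?_, ?_, ?_⟩
  · rintro g ⟨c, rfl⟩ ⟨c', h⟩
    have h1 := hinj _ _ h
    have h2 := lin_apply (c0 := c) (c1 := -c') (c2 := 0) ht
      (by rw [comb3_neg, comb3_zero, h1]; simp)
    rw [h2.1, comb3_zero, ofAdd_zero, map_one]
  · rintro g ⟨c, rfl⟩ ⟨c', h⟩
    have h1 := hinj _ _ h
    have h2 := lin_apply (c0 := c) (c1 := 0) (c2 := -c') ht
      (by rw [comb3_neg, comb3_zero, h1]; simp)
    rw [h2.1, comb3_zero, ofAdd_zero, map_one]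
  · rintro g ⟨c, rfl⟩ ⟨c', h⟩
    have h1 := hinj _ _ h
    have h2 := lin_apply (c0 := 0) (c1 := c) (c2 := -c') ht
      (by rw [comb3_neg, comb3_zero, h1]; simp)
    rw [h2.2.1, comb3_zero, ofAdd_zero, map_one]
  · rintro α ⟨c, rfl⟩ β ⟨c', rfl⟩ ⟨c'', h⟩
    rw [← map_mul, ← ofAdd_add] at h ⊢
    have h1 := hinj _ _ h
    have h2 := lin_apply (c0 := c) (c1 := c') (c2 := -c'') ht
      (by rw [comb3_neg, h1]; simp)
    rw [h2.1, h2.2.1, comb3_zero, comb3_zero, add_zero, ofAdd_zero, map_one]

lemma card_sub3 [Finite G] {ι : Multiplicative (EE p R) →* G} (hι : Function.Injective ι)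
    {t : JJ K → EE p R} (ht : Lin t) (a : Fin 3) : 2 ^ K ≤ Nat.card (sub3 ι t a) := by
  have hcomb : ∀ c : Fin K → ZMod p, comb3 a c t = 0 → c = 0 := by
    intro c hc
    fin_cases a
    · exact (lin_apply (c0 := c) (c1 := 0) (c2 := 0) ht
        (by rw [comb3_zero, comb3_zero, add_zero, add_zero]; exact hc)).1
    · exact (lin_apply (c0 := 0) (c1 := c) (c2 := 0) ht
        (by rw [comb3_zero, comb3_zero, add_zero, zero_add]; exact hc)).2.1
    · exact (lin_apply (c0 := 0) (c1 := 0) (c2 := c) ht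
        (by rw [comb3_zero, comb3_zero, add_zero, zero_add]; exact hc)).2.2
  have h1 : Nat.card (Fin K → ZMod p) ≤ Nat.card (sub3 ι t a) := by
    apply Nat.card_le_card_of_injective
      (fun c => (⟨ι (Multiplicative.ofAdd (comb3 a c t)), ⟨c, rfl⟩⟩ : sub3 ι t a))
    intro c c' h
    have h2 : ι (Multiplicative.ofAdd (comb3 a c t)) = ι (Multiplicative.ofAdd (comb3 a c' t)) :=
      congrArg Subtype.val h
    have h3 : comb3 a c t = comb3 a c' t := Multiplicative.ofAdd.injective (hι h2)
    have h4 : comb3 a (c - c') t = 0 := by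
      rw [sub_eq_add_neg, comb3_add, comb3_neg, h3]
      simp
    exact sub_eq_zero.1 (hcomb _ h4)
  have h2 : Nat.card (Fin K → ZMod p) = p ^ K := by
    rw [Nat.card_fun, Nat.card_fin, Nat.card_zmod]
  rw [h2] at h1
  exact (Nat.pow_le_pow_left (Fact.out : p.Prime).two_le K).trans h1

/-! ### Counting tuples -/

lemma ncard_mul_le_of_determined {J E : Type} [Finite J] [Finite E] (A : Set (J → E)) (j0 : J)
    (hA : ∀ t ∈ A, ∀ t' ∈ A, (∀ j, j ≠ j0 → t j = t' j) → t = t') :
    A.ncard * Nat.card E ≤ Nat.card (J → E) := by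
  classical
  rw [← Nat.card_coe_set_eq, ← Nat.card_prod]
  apply Nat.card_le_card_of_injective (fun x : A × E => Function.update x.1.1 j0 x.2)
  rintro ⟨⟨t, ht⟩, e⟩ ⟨⟨t', ht'⟩, e'⟩ h
  simp only at h
  have he : e = e' := by
    have := congrFun h j0
    simpa using this
  have htt : t = t' := by
    apply hA t ht t' ht'
    intro j hj
    have := congrFun h j
    simpa [Function.update_of_ne hj] using this
  subst he htt
  rfl

lemma ncard_biUnion_le {α β : Type*} [Finite α] [Finite β] (A : β → Set α) (m M : ℕ)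
    (h : ∀ b, (A b).ncard * m ≤ M) : (⋃ b, A b).ncard * m ≤ Nat.card β * M := by
  classical
  have := Fintype.ofFinite β
  have := Fintype.ofFinite α
  have h1 : (⋃ b, A b) = ((Finset.univ.biUnion (fun b => (A b).toFinset) : Finset α) : Set α) := by
    ext x
    simp
  rw [h1, Set.ncard_coe_finset, Nat.card_eq_fintype_card]
  calc (Finset.univ.biUnion (fun b => (A b).toFinset)).card * m
      ≤ (∑ b : β, (A b).toFinset.card) * m := Nat.mul_le_mul_right m Finset.card_biUnion_le
    _ = ∑ b : β, (A b).ncard * m := by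
        rw [Finset.sum_mul]
        apply Finset.sum_congr rfl
        intro b _
        rw [Set.ncard_eq_toFinset_card']
    _ ≤ ∑ _b : β, M := Finset.sum_le_sum (fun b _ => h b)
    _ = Fintype.card β * M := by simp

lemma dep_count : {t : JJ K → EE p R | ¬ Lin t}.ncard * Nat.card (EE p R) ≤
    Nat.card (JJ K → ZMod p) * Nat.card (JJ K → EE p R) := by
  have h1 : {t : JJ K → EE p R | ¬ Lin t} ⊆
      ⋃ c : JJ K → ZMod p, {t : JJ K → EE p R | c ≠ 0 ∧ ∑ j, c j • t j = 0} := by
    intro t ht
    have ht' : ¬ Lin t := ht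
    unfold Lin at ht'
    push Not at ht'
    obtain ⟨c, hc, hc0⟩ := ht'
    exact Set.mem_iUnion.2 ⟨c, hc0, hc⟩
  refine (Nat.mul_le_mul_right _ (Set.ncard_le_ncard h1 (Set.toFinite _))).trans ?_
  apply ncard_biUnion_le
  intro c
  by_cases hc : c = 0
  · have : {t : JJ K → EE p R | c ≠ 0 ∧ ∑ j, c j • t j = 0} = ∅ := by
      ext t
      simp [hc]
    rw [this]
    simp
  · obtain ⟨j0, hj0⟩ : ∃ j0, c j0 ≠ 0 := by
      by_contra hcon
      push Not at hcon
      exact hc (funext hcon)
    apply ncard_mul_le_of_determined _ j0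
    rintro t ⟨-, ht⟩ t' ⟨-, ht'⟩ hagree
    funext j
    by_cases hj : j = j0
    · subst hj
      rw [← Finset.add_sum_erase _ _ (Finset.mem_univ j)] at ht ht'
      have h2 : ∑ x ∈ Finset.univ.erase j, c x • t x = ∑ x ∈ Finset.univ.erase j, c x • t' x := by
        apply Finset.sum_congr rfl
        intro x hx
        rw [hagree x (Finset.ne_of_mem_erase hx)]
      rw [h2] at ht
      have h3 : c j • t j = c j • t' j := by
        have := ht.trans ht'.symm
        exact add_right_cancel this
      have h4 : c j • (t j - t' j) = 0 := by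
        rw [smul_sub, h3, sub_self]
      rcases smul_eq_zero.1 h4 with h5 | h5
      · exact absurd h5 hj0
      · exact sub_eq_zero.1 h5
    · exact hagree j hj

/-- Tuples for which the element `g` is bad. -/
def badT (ι : Multiplicative (EE p R) →* G) (K : ℕ) (x y z : Fin 3) (g : G) :
    Set (JJ K → EE p R) :=
  {t | ∃ a b c : Fin K → ZMod p, a ≠ 0 ∧
    g * ι (Multiplicative.ofAdd (comb3 y b t + comb3 z c t)) * g⁻¹ =
      ι (Multiplicative.ofAdd (comb3 x a t))}

lemma comb3_congr {a : Fin 3} {c : Fin K → ZMod p} {t t' : JJ K → EE p R} {j0 : JJ K}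
    (h : ∀ j, j ≠ j0 → t j = t' j) (ha : a ≠ j0.1) : comb3 a c t = comb3 a c t' := by
  unfold comb3
  apply Finset.sum_congr rfl
  intro i _
  rw [h (a, i)]
  intro e
  apply ha
  rw [← e]

lemma bad_countT {ι : Multiplicative (EE p R) →* G} (hι : Function.Injective ι)
    {x y z : Fin 3} (hxy : x ≠ y) (hxz : x ≠ z) (g : G) :
    (badT ι K x y z g).ncard * Nat.card (EE p R) ≤
      Nat.card ((Fin K → ZMod p) × (Fin K → ZMod p) × (Fin K → ZMod p)) *
        Nat.card (JJ K → EE p R) := by
  have h1 : badT ι K x y z g ⊆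
      ⋃ q : (Fin K → ZMod p) × (Fin K → ZMod p) × (Fin K → ZMod p),
        {t : JJ K → EE p R | q.1 ≠ 0 ∧
          g * ι (Multiplicative.ofAdd (comb3 y q.2.1 t + comb3 z q.2.2 t)) * g⁻¹ =
            ι (Multiplicative.ofAdd (comb3 x q.1 t))} := by
    rintro t ⟨a, b, c, ha, h⟩
    exact Set.mem_iUnion.2 ⟨(a, b, c), ha, h⟩
  refine (Nat.mul_le_mul_right _ (Set.ncard_le_ncard h1 (Set.toFinite _))).trans ?_
  apply ncard_biUnion_le
  rintro ⟨a, b, c⟩
  by_cases ha : a = 0
  · have : {t : JJ K → EE p R | (a, b, c).1 ≠ 0 ∧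
          g * ι (Multiplicative.ofAdd (comb3 y (a, b, c).2.1 t + comb3 z (a, b, c).2.2 t)) * g⁻¹ =
            ι (Multiplicative.ofAdd (comb3 x (a, b, c).1 t))} = ∅ := by
      ext t
      simp [ha]
    rw [this]
    simp
  · obtain ⟨i0, hi0⟩ : ∃ i0, a i0 ≠ 0 := by
      by_contra hcon
      push Not at hcon
      exact ha (funext hcon)
    apply ncard_mul_le_of_determined _ (x, i0)
    rintro t ⟨-, ht⟩ t' ⟨-, ht'⟩ hagree
    simp only at ht ht'
    have e1 : comb3 y b t = comb3 y b t' := comb3_congr hagree (Ne.symm hxy)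
    have e2 : comb3 z c t = comb3 z c t' := comb3_congr hagree (Ne.symm hxz)
    rw [e1, e2, ht'] at ht
    have e3 : comb3 x a t' = comb3 x a t := Multiplicative.ofAdd.injective (hι ht)
    funext j
    by_cases hj : j = (x, i0)
    · subst hj
      unfold comb3 at e3
      rw [← Finset.add_sum_erase _ _ (Finset.mem_univ i0),
        ← Finset.add_sum_erase _ (fun i => a i • t (x, i)) (Finset.mem_univ i0)] at e3
      have h2 : ∑ i ∈ Finset.univ.erase i0, a i • t' (x, i) =
          ∑ i ∈ Finset.univ.erase i0, a i • t (x, i) := by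
        apply Finset.sum_congr rfl
        intro i hi
        rw [hagree (x, i)]
        intro e
        have := congrArg Prod.snd e
        exact (Finset.ne_of_mem_erase hi) this
      rw [h2] at e3
      have h3 : a i0 • t' (x, i0) = a i0 • t (x, i0) := add_right_cancel e3
      have h4 : a i0 • (t (x, i0) - t' (x, i0)) = 0 := by
        rw [smul_sub, h3, sub_self]
      rcases smul_eq_zero.1 h4 with h5 | h5
      · exact absurd h5 hi0
      · exact sub_eq_zero.1 h5
    · exact hagree j hj

/-- Double counting. -/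
lemma exists_small_fiber {α β : Type*} [Finite α] [Finite β] [Nonempty α] (B : α → Set β)
    (C : Set β) (M : ℕ) (hM : ∀ a, (B a).ncard ≤ M) (h : 2 * M + C.ncard < Nat.card β) :
    ∃ b, b ∉ C ∧ 2 * {a | b ∈ B a}.ncard < Nat.card α := by
  classical
  have := Fintype.ofFinite α
  have := Fintype.ofFinite β
  by_contra hcon
  push Not at hcon
  have hα : 0 < Nat.card α := Nat.card_pos
  -- the total number of incidences
  have h1 : ∑ b : β, {a | b ∈ B a}.ncard = ∑ a : α, (B a).ncard := by
    have e1 : ∀ b : β, {a | b ∈ B a}.ncard = ∑ a : α, if b ∈ B a then 1 else 0 := by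
      intro b
      rw [Set.ncard_eq_toFinset_card', Finset.sum_boole]
      simp
    have e2 : ∀ a : α, (B a).ncard = ∑ b : β, if b ∈ B a then 1 else 0 := by
      intro a
      rw [Set.ncard_eq_toFinset_card']
      simp
    simp_rw [e1, e2]
    exact Finset.sum_comm
  have h2 : ∑ a : α, (B a).ncard ≤ Nat.card α * M := by
    calc ∑ a : α, (B a).ncard ≤ ∑ _a : α, M := Finset.sum_le_sum (fun a _ => hM a)
      _ = Nat.card α * M := by simp
  have h3 : Nat.card α * (Finset.univ.filter (fun b => b ∉ C)).card ≤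
      2 * ∑ b : β, {a | b ∈ B a}.ncard := by
    calc Nat.card α * (Finset.univ.filter (fun b => b ∉ C)).card
        = ∑ _b ∈ Finset.univ.filter (fun b => b ∉ C), Nat.card α := by
          rw [Finset.sum_const, smul_eq_mul, mul_comm]
      _ ≤ ∑ b ∈ Finset.univ.filter (fun b => b ∉ C), 2 * {a | b ∈ B a}.ncard := by
          apply Finset.sum_le_sum
          intro b hb
          exact hcon b (Finset.mem_filter.1 hb).2
      _ ≤ ∑ b : β, 2 * {a | b ∈ B a}.ncard := by
          apply Finset.sum_le_sum_of_subset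
          exact Finset.filter_subset _ _
      _ = 2 * ∑ b : β, {a | b ∈ B a}.ncard := by rw [Finset.mul_sum]
  have h4 : Nat.card α * (Finset.univ.filter (fun b => b ∉ C)).card ≤ Nat.card α * (2 * M) := by
    calc _ ≤ 2 * ∑ b : β, {a | b ∈ B a}.ncard := h3
      _ ≤ 2 * (Nat.card α * M) := by
          rw [h1]
          exact Nat.mul_le_mul_left 2 h2
      _ = Nat.card α * (2 * M) := by ring
  have h5 := Nat.le_of_mul_le_mul_left h4 hα
  have h6 : C.ncard + (Finset.univ.filter (fun b => b ∉ C)).card = Nat.card β := by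
    have hsum := Finset.card_filter_add_card_filter_not (s := (Finset.univ : Finset β))
      (p := fun b => b ∈ C)
    rw [Finset.card_univ] at hsum
    rw [Nat.card_eq_fintype_card, ← hsum, Set.ncard_eq_toFinset_card']
    congr 2
    ext b
    simp
  omega

/-- The tuple of vectors exists if the rank is at least `3 K + 4`. -/
lemma exists_tuple [Finite G] {ι : Multiplicative (EE p R) →* G} (hι : Function.Injective ι)
    (hR : 3 * K + 4 ≤ R) :
    ∃ t : JJ K → EE p R, Lin t ∧
      2 * {g : G | t ∈ badT ι K 0 1 2 g ∪ badT ι K 1 0 2 g}.ncard < Nat.card G := by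
  have hp2 : 2 ≤ p := (Fact.out : p.Prime).two_le
  set T := Nat.card (JJ K → EE p R) with hT
  set n := Nat.card (EE p R) with hn
  have hTpos : 0 < T := Nat.card_pos
  have hnval : n = p ^ R := by
    rw [hn, Nat.card_fun, Nat.card_fin, Nat.card_zmod]
  have hc1 : Nat.card (JJ K → ZMod p) = p ^ (3 * K) := by
    rw [Nat.card_fun, Nat.card_prod, Nat.card_fin, Nat.card_fin, Nat.card_zmod]
  have hc2 : Nat.card ((Fin K → ZMod p) × (Fin K → ZMod p) × (Fin K → ZMod p)) =
      p ^ (3 * K) := by
    rw [Nat.card_prod, Nat.card_prod, Nat.card_fun, Nat.card_fin, Nat.card_zmod]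
    ring
  have h16 : 16 * p ^ (3 * K) ≤ n := by
    rw [hnval]
    calc 16 * p ^ (3 * K) = 2 ^ 4 * p ^ (3 * K) := by norm_num
      _ ≤ p ^ 4 * p ^ (3 * K) := Nat.mul_le_mul_right _ (Nat.pow_le_pow_left hp2 4)
      _ = p ^ (3 * K + 4) := by ring
      _ ≤ p ^ R := Nat.pow_le_pow_right (by omega) hR
  have hpk : 0 < p ^ (3 * K) := pow_pos (by omega) _
  -- all three kinds of exceptional sets have at most `T / 16` elements
  have key : ∀ m : ℕ, m * n ≤ p ^ (3 * K) * T → 16 * m ≤ T := by
    intro m hm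
    have h1 : m * (16 * p ^ (3 * K)) ≤ p ^ (3 * K) * T :=
      (Nat.mul_le_mul_left m h16).trans hm
    have h2 : p ^ (3 * K) * (16 * m) ≤ p ^ (3 * K) * T := by
      calc p ^ (3 * K) * (16 * m) = m * (16 * p ^ (3 * K)) := by ring
        _ ≤ _ := h1
    exact Nat.le_of_mul_le_mul_left h2 hpk
  have hdep : 16 * {t : JJ K → EE p R | ¬ Lin t}.ncard ≤ T := by
    apply key
    have := dep_count (p := p) (R := R) (K := K)
    rw [hc1] at this
    exact this
  have hbad : ∀ g : G, 8 * (badT ι K 0 1 2 g ∪ badT ι K 1 0 2 g).ncard ≤ T := by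
    intro g
    have b1 := bad_countT (K := K) hι (x := 0) (y := 1) (z := 2) (by decide) (by decide) g
    have b2 := bad_countT (K := K) hι (x := 1) (y := 0) (z := 2) (by decide) (by decide) g
    rw [hc2] at b1 b2
    have k1 := key _ b1
    have k2 := key _ b2
    have := Set.ncard_union_le (badT ι K 0 1 2 g) (badT ι K 1 0 2 g)
    omega
  obtain ⟨t, ht, hlt⟩ := exists_small_fiber
    (fun g : G => badT ι K 0 1 2 g ∪ badT ι K 1 0 2 g) {t : JJ K → EE p R | ¬ Lin t} (T / 8)
    (by
      intro g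
      have := hbad g
      omega)
    (by
      rw [← hT]
      omega)
  refine ⟨t, ?_, hlt⟩
  by_contra hcon
  exact ht hcon

/-- Groups containing `(Z/p)^R` with `R ≥ 3 K + 4`, `K ≥ 1`, are represented by small graphs. -/
theorem exists_graph_elementary [Finite G] {ι : Multiplicative (EE p R) →* G}
    (hι : Function.Injective ι) (hR : 3 * K + 4 ≤ R) :
    ∃ (n : ℕ) (Y : SimpleGraph (Fin n)), Nonempty ((Y ≃g Y) ≃* G) ∧
      2 ^ K * n ≤ 3 * (11 + 24 * K) * Nat.card G + 2 ^ K * (23 + 48 * K) ∧
      2 ^ R ≤ Nat.card G := by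
  classical
  have hp2 : 2 ≤ p := (Fact.out : p.Prime).two_le
  obtain ⟨t, hlin, hbad⟩ := exists_tuple (K := K) hι hR
  have hI := indep_of_lin hι hlin
  have hcardG : p ^ R ≤ Nat.card G := by
    have h1 := Nat.card_le_card_of_injective _ hι
    have h2 : Nat.card (Multiplicative (EE p R)) = p ^ R := by
      rw [Nat.card_congr Multiplicative.toAdd, Nat.card_fun, Nat.card_fin, Nat.card_zmod]
    rwa [h2] at h1
  have h2R : 2 ^ R ≤ Nat.card G := (Nat.pow_le_pow_left hp2 R).trans hcardG
  -- good elements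
  have hhalf : Nat.card G < 2 * {g | Good (sub3 ι t) g}.ncard := by
    have hcover : (Set.univ : Set G) ⊆ {g | Good (sub3 ι t) g} ∪
        {g : G | t ∈ badT ι K 0 1 2 g ∪ badT ι K 1 0 2 g} := by
      intro g _
      by_cases hg : Good (sub3 ι t) g
      · exact Or.inl hg
      · right
        unfold Good at hg
        rw [not_and_or] at hg
        rcases hg with hg | hg
        · left
          push Not at hg
          obtain ⟨β, ⟨b, rfl⟩, γ, ⟨c, rfl⟩, ⟨a, ha⟩, hne⟩ := hg
          rw [← map_mul, ← ofAdd_add] at ha hne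
          refine ⟨a, b, c, ?_, ha⟩
          rintro rfl
          rw [comb3_zero, ofAdd_zero, map_one, mul_inv_eq_one] at ha
          apply hne
          simpa using ha
        · right
          push Not at hg
          obtain ⟨β, ⟨b, rfl⟩, γ, ⟨c, rfl⟩, ⟨a, ha⟩, hne⟩ := hg
          rw [← map_mul, ← ofAdd_add] at ha hne
          refine ⟨a, b, c, ?_, ha⟩
          rintro rfl
          rw [comb3_zero, ofAdd_zero, map_one, mul_inv_eq_one] at ha
          apply hne
          simpa using ha
    have h1 := Set.ncard_le_ncard hcover (Set.toFinite _)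
    have h2 := Set.ncard_union_le {g | Good (sub3 ι t) g}
      {g : G | t ∈ badT ι K 0 1 2 g ∪ badT ι K 1 0 2 g}
    rw [Set.ncard_univ] at h1
    omega
  let v : JJ K → G := fun j => ι (Multiplicative.ofAdd (t j))
  have hex : ∀ j, ∃ s, Good (sub3 ι t) s ∧ Good (sub3 ι t) (s * v j) := by
    intro j
    obtain ⟨s, hs, hs'⟩ := half_lemma hhalf (v j)
    exact ⟨s, hs, hs'⟩
  choose s hs hs' using hex
  let S : List G := (Finset.univ : Finset (JJ K)).toList.flatMap (fun j => [s j, s j * v j])
  have hSlen : S.length = 6 * K := by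
    have : ∀ l : List (JJ K), (l.flatMap (fun j => [s j, s j * v j])).length = 2 * l.length := by
      intro l
      induction l with
      | nil => rfl
      | cons a l ih =>
        rw [List.flatMap_cons, List.length_append, ih, List.length_cons]
        simp only [List.length_cons, List.length_nil]
        ring
    rw [this, Finset.length_toList, Finset.card_univ, Fintype.card_prod, Fintype.card_fin,
      Fintype.card_fin]
    ring
  have hS : ∀ x ∈ S, Good (sub3 ι t) x := by
    intro x hx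
    obtain ⟨j, -, hj⟩ := List.mem_flatMap.1 hx
    simp only [List.mem_cons, List.not_mem_nil, or_false] at hj
    rcases hj with rfl | rfl
    · exact hs j
    · exact hs' j
  have hmemS : ∀ j, s j ∈ S ∧ s j * v j ∈ S := by
    intro j
    constructor
    · exact List.mem_flatMap.2 ⟨j, Finset.mem_toList.2 (Finset.mem_univ j), by simp⟩
    · exact List.mem_flatMap.2 ⟨j, Finset.mem_toList.2 (Finset.mem_univ j), by simp⟩
  have hv : ∀ j, v j ∈ Subgroup.closure {x | x ∈ S} := by
    intro j
    have e : v j = (s j)⁻¹ * (s j * v j) := by group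
    rw [e]
    exact mul_mem (inv_mem (Subgroup.subset_closure (hmemS j).1))
      (Subgroup.subset_closure (hmemS j).2)
  -- the set of vectors mapped into the closure
  let W : AddSubgroup (EE p R) :=
    { carrier := {w | ι (Multiplicative.ofAdd w) ∈ Subgroup.closure {x | x ∈ S}}
      add_mem' := by
        intro x y hx hy
        change ι (Multiplicative.ofAdd (x + y)) ∈ Subgroup.closure {x | x ∈ S}
        rw [ofAdd_add, map_mul]
        exact mul_mem hx hy
      zero_mem' := by
        change ι (Multiplicative.ofAdd 0) ∈ Subgroup.closure {x | x ∈ S}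
        rw [ofAdd_zero, map_one]
        exact one_mem _
      neg_mem' := by
        intro x hx
        change ι (Multiplicative.ofAdd (-x)) ∈ Subgroup.closure {x | x ∈ S}
        rw [ofAdd_neg, map_inv]
        exact inv_mem hx }
  have hHS : ∀ a, sub3 ι t a ≤ Subgroup.closure {x | x ∈ S} := by
    rintro a g ⟨c, rfl⟩
    change comb3 a c t ∈ W
    unfold comb3
    apply AddSubgroup.sum_mem
    intro i _
    have h1 : c i • t (a, i) = (c i).val • t (a, i) := by
      funext k
      simp only [Pi.smul_apply, smul_eq_mul, nsmul_eq_mul, ZMod.natCast_val, ZMod.cast_id', id_eq]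
    rw [h1]
    exact AddSubgroup.nsmul_mem W (hv (a, i)) _
  have hcardH : ∀ a, 2 ^ K ≤ Nat.card (sub3 ι t a) := card_sub3 hι hlin
  have hne : ∀ a, sub3 ι t a ≠ ⊤ := by
    intro a htop
    have h1 : Nat.card (sub3 ι t a) = Nat.card G := by rw [htop, Subgroup.card_top]
    have h2 : Nat.card (sub3 ι t a) ≤ p ^ K := by
      have h3 : Nat.card (Fin K → ZMod p) = p ^ K := by
        rw [Nat.card_fun, Nat.card_fin, Nat.card_zmod]
      rw [← h3]
      apply Nat.card_le_card_of_surjective
        (fun c => (⟨ι (Multiplicative.ofAdd (comb3 a c t)), ⟨c, rfl⟩⟩ : sub3 ι t a))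
      rintro ⟨g, c, rfl⟩
      exact ⟨c, rfl⟩
    have h3 : p ^ K < p ^ R := Nat.pow_lt_pow_right (by omega) (by omega)
    omega
  obtain ⟨Y, hY⟩ := exists_graph_of_data (sub3 ι t) hI hne S hS hHS (closure_of_half hhalf)
  refine ⟨_, Y, hY, ?_, h2R⟩
  rw [hSlen]
  have hcos := card_cos (sub3 ι t) hcardH
  calc 2 ^ K * ((11 + 4 * (6 * K)) * Nat.card (Cos (sub3 ι t)) + (2 * (11 + 4 * (6 * K)) + 1))
      = (11 + 24 * K) * (2 ^ K * Nat.card (Cos (sub3 ι t))) + 2 ^ K * (23 + 48 * K) := by ring
    _ ≤ (11 + 24 * K) * (3 * Nat.card G) + 2 ^ K * (23 + 48 * K) :=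
        Nat.add_le_add_right (Nat.mul_le_mul_left _ hcos) _
    _ = 3 * (11 + 24 * K) * Nat.card G + 2 ^ K * (23 + 48 * K) := by ring

end

end Pool.Agent.Lib.MP_9009ba_co
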