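import Mathlib

/-!
# Generators of finite `p`-groups: basic facts
-/

namespace Pool.Agent.Lib.MP_9009ba_co

universe u

section

variable {P : Type u} [Group P] [Finite P] {p : ℕ} [Fact p.Prime]

/-- A subgroup of index at most `p ^ m` of a finite `p`-group and `m` further elements generate
the group. -/
theorem exists_gens_of_index_le (hP : IsPGroup p P) : ∀ (m : ℕ) (N : Subgroup P),
    N.index ≤ p ^ m →
    ∃ S : Finset P, S.card ≤ m ∧ N ⊔ Subgroup.closure (S : Set P) = ⊤ := by
  classical
  intro m
  induction m with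
  | zero =>
    intro N hN
    refine ⟨∅, by simp, ?_⟩
    have : N.index = 1 := by
      have := N.index_ne_zero_of_finite
      simp only [pow_zero] at hN
      omega
    rw [Subgroup.index_eq_one] at this
    simp [this]
  | succ m ih =>
    intro N hN
    by_cases htop : N = ⊤
    · exact ⟨∅, by simp, by simp [htop]⟩
    obtain ⟨x, hx⟩ : ∃ x, x ∉ N := by
      by_contra hcon
      push Not at hcon
      exact htop (eq_top_iff.mpr fun x _ => hcon x)
    set N' := N ⊔ Subgroup.closure {x} with hN'
    have hle : N ≤ N' := le_sup_left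
    have hmul := Subgroup.relIndex_mul_index hle
    have hxN' : x ∈ N' := by
      have : Subgroup.closure {x} ≤ N' := le_sup_right
      exact this (Subgroup.subset_closure rfl)
    have hrel : N.relIndex N' ≠ 1 := by
      rw [Ne, Subgroup.relIndex_eq_one]
      intro h
      exact hx (h hxN')
    obtain ⟨k, hk⟩ := hP.index N
    have hdvd : N.relIndex N' ∣ p ^ k := by
      rw [← hk, ← hmul]
      exact dvd_mul_right _ _
    obtain ⟨j, hj1, hj⟩ := (Nat.dvd_prime_pow Fact.out).mp hdvd
    have hj0 : j ≠ 0 := by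
      rintro rfl
      exact hrel (by simpa using hj)
    have hple : p ≤ N.relIndex N' := by
      rw [hj]
      exact Nat.le_self_pow hj0 p
    have hind : N'.index ≤ p ^ m := by
      have : p * N'.index ≤ p * p ^ m := by
        calc p * N'.index ≤ N.relIndex N' * N'.index := Nat.mul_le_mul_right _ hple
          _ = N.index := hmul
          _ ≤ p ^ (m + 1) := hN
          _ = p * p ^ m := pow_succ' ..
      exact Nat.le_of_mul_le_mul_left this (Fact.out : p.Prime).pos
    obtain ⟨S, hS, hSt⟩ := ih N' hind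
    refine ⟨insert x S, (Finset.card_insert_le _ _).trans (by omega), ?_⟩
    rw [eq_top_iff, ← hSt, hN']
    refine sup_le (sup_le le_sup_left ?_) ?_
    · refine le_trans ?_ le_sup_right
      apply Subgroup.closure_mono
      simp
    · refine le_trans ?_ le_sup_right
      apply Subgroup.closure_mono
      simp

/-- The `p`-th powers are non-generators of a finite `p`-group. -/
theorem eq_top_of_sup_pow (hP : IsPGroup p P) (T : Subgroup P)
    (hT : T ⊔ Subgroup.closure (Set.range fun x : P => x ^ p) = ⊤) : T = ⊤ := by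
  by_contra hne
  obtain ⟨M, hM, hTM⟩ := (eq_top_or_exists_le_coatom T).resolve_left hne
  have hnil : Group.IsNilpotent P := IsPGroup.isNilpotent hP
  have hnorm : M.Normal := Subgroup.NormalizerCondition.normal_of_coatom M
    (Group.normalizerCondition_of_isNilpotent) hM
  have hindex : M.index = p := by
    obtain ⟨n, hn⟩ := IsPGroup.iff_card.mp hP
    obtain ⟨k, hk⟩ := IsPGroup.iff_card.mp (hP.to_subgroup M)
    have hlt : Nat.card M < Nat.card P := by
      have := M.card_mul_index
      have h1 : M.index ≠ 1 := by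
        rw [Ne, Subgroup.index_eq_one]
        exact hM.1
      have h0 := M.index_ne_zero_of_finite
      have hpos : 0 < Nat.card M := Nat.card_pos
      have h2 : 2 ≤ M.index := by omega
      nlinarith
    have hkn : k + 1 ≤ n := by
      rw [hn, hk] at hlt
      exact (Nat.pow_lt_pow_iff_right (Fact.out : p.Prime).one_lt).mp hlt
    obtain ⟨L, hL, hML⟩ := Sylow.exists_subgroup_card_pow_succ (p := p) (n := k)
      (by rw [hn]; exact pow_dvd_pow p hkn) hk
    have hLtop : L = ⊤ := by
      apply hM.2
      refine lt_of_le_of_ne hML ?_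
      rintro rfl
      rw [hk] at hL
      have := Nat.pow_right_injective (Fact.out : p.Prime).two_le hL
      omega
    have := M.card_mul_index
    rw [← Subgroup.card_top (G := P), ← hLtop, hL, hk, pow_succ] at this
    exact Nat.eq_of_mul_eq_mul_left (pow_pos (Fact.out : p.Prime).pos k) this
  apply hM.1
  rw [eq_top_iff, ← hT]
  refine sup_le hTM ?_
  rw [Subgroup.closure_le]
  rintro _ ⟨x, rfl⟩
  have := M.pow_index_mem x
  rwa [hindex] at this

end

section

variable {P : Type u} [Group P] [Finite P] {p : ℕ} [Fact p.Prime]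

/-- A finite `p`-group has a normal abelian subgroup that contains its centralizer. -/
theorem exists_normal_abelian (hP : IsPGroup p P) :
    ∃ A : Subgroup P, A.Normal ∧ (∀ x ∈ A, ∀ y ∈ A, x * y = y * x) ∧
      Subgroup.centralizer (A : Set P) ≤ A := by
  let 𝒮 : Set (Subgroup P) := {A | A.Normal ∧ ∀ x ∈ A, ∀ y ∈ A, x * y = y * x}
  have hne : 𝒮.Nonempty := by
    refine ⟨⊥, inferInstance, ?_⟩
    intro x hx y hy
    rw [Subgroup.mem_bot] at hx hy
    rw [hx, hy]
  obtain ⟨A, hAmax⟩ := (Set.toFinite 𝒮).exists_maximal hne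
  obtain ⟨⟨hAn, hAc⟩, hmax⟩ := hAmax
  refine ⟨A, hAn, hAc, ?_⟩
  by_contra hnot
  set C : Subgroup P := Subgroup.centralizer (A : Set P) with hC
  have hAC : A ≤ C := by
    intro x hx
    rw [hC, Subgroup.mem_centralizer_iff]
    intro y hy
    exact hAc y hy x hx
  have hCn : C.Normal := by
    rw [hC]
    infer_instance
  let π := QuotientGroup.mk' A
  let N : Subgroup (P ⧸ A) := C.map π
  have hNn : N.Normal := hCn.map π (QuotientGroup.mk'_surjective A)
  have hPA : IsPGroup p (P ⧸ A) := hP.to_quotient A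
  obtain ⟨c, hcC, hcA⟩ := Set.not_subset.mp hnot
  have hNnt : Nontrivial N := by
    refine ⟨⟨⟨π c, Subgroup.mem_map_of_mem π hcC⟩, 1, ?_⟩⟩
    intro h
    have h' : π c = 1 := congrArg Subtype.val h
    rw [QuotientGroup.mk'_apply, QuotientGroup.eq_one_iff] at h'
    exact hcA h'
  have hdvd : p ∣ Nat.card N := by
    obtain ⟨n, hn0, hn⟩ := (hPA.to_subgroup N).nontrivial_iff_card.mp inferInstance
    exact hn.symm ▸ dvd_pow_self _ (ne_of_gt hn0)
  have hfix := (hPA.of_equiv ConjAct.toConjAct).exists_fixed_point_of_prime_dvd_card_of_fixed_point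
    N hdvd (a := 1) (by
      intro g
      exact smul_one g)
  obtain ⟨⟨z, hz⟩, hzfix, hz1⟩ := hfix
  obtain ⟨x, hxC, hxz⟩ := hz
  -- `x` centralizes `A`, is not in `A` and is central modulo `A`
  have hxA : x ∉ A := by
    intro hx
    apply hz1
    apply Subtype.ext
    show (1 : P ⧸ A) = z
    rw [← hxz, QuotientGroup.mk'_apply, eq_comm, QuotientGroup.eq_one_iff]
    exact hx
  have hcentral : ∀ g : P, g * x * g⁻¹ * x⁻¹ ∈ A := by
    intro g
    have h := hzfix (ConjAct.toConjAct (π g))
    have h' : π g * z * (π g)⁻¹ = z := congrArg Subtype.val h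
    rw [← hxz] at h'
    rw [← QuotientGroup.eq_one_iff]
    have : ((g * x * g⁻¹ * x⁻¹ : P) : P ⧸ A) = π g * π x * (π g)⁻¹ * (π x)⁻¹ := rfl
    rw [this]
    show π g * π x * (π g)⁻¹ * (π x)⁻¹ = 1
    rw [show π g * π x * (π g)⁻¹ = π x from h', mul_inv_cancel]
  -- the subgroup generated by `A` and `x`
  set B : Subgroup P := A ⊔ Subgroup.zpowers x with hB
  have hBmem : ∀ b ∈ B, ∃ a ∈ A, ∃ k : ℤ, b = a * x ^ k := by
    intro b hb
    rw [hB, Subgroup.mem_sup_of_normal_left] at hb
    obtain ⟨a, ha, y, hy, rfl⟩ := hb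
    obtain ⟨k, rfl⟩ := Subgroup.mem_zpowers_iff.mp hy
    exact ⟨a, ha, k, rfl⟩
  have hBn : B.Normal := by
    constructor
    intro b hb g
    obtain ⟨a, ha, k, rfl⟩ := hBmem b hb
    have e : g * (a * x ^ k) * g⁻¹ = (g * a * g⁻¹) * (g * x * g⁻¹) ^ k := by
      rw [conj_zpow]
      group
    rw [e]
    apply B.mul_mem
    · exact (le_sup_left : A ≤ B) (hAn.conj_mem a ha g)
    · apply B.zpow_mem
      have e2 : g * x * g⁻¹ = (g * x * g⁻¹ * x⁻¹) * x := by group
      rw [e2]
      apply B.mul_mem
      · exact (le_sup_left : A ≤ B) (hcentral g)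
      · exact (le_sup_right : Subgroup.zpowers x ≤ B) (Subgroup.mem_zpowers x)
  have hBc : ∀ b ∈ B, ∀ b' ∈ B, b * b' = b' * b := by
    intro b hb b' hb'
    obtain ⟨a, ha, k, rfl⟩ := hBmem b hb
    obtain ⟨a', ha', k', rfl⟩ := hBmem b' hb'
    have hxa : ∀ a ∈ A, Commute a x := by
      intro a ha
      rw [hC, SetLike.mem_coe, Subgroup.mem_centralizer_iff] at hxC
      exact hxC a ha
    have h1 : Commute a a' := hAc a ha a' ha'
    have h2 : Commute a (x ^ k') := (hxa a ha).zpow_right k'
    have h3 : Commute (x ^ k) a' := ((hxa a' ha').zpow_right k).symm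
    have h4 : Commute (x ^ k) (x ^ k') := Commute.zpow_zpow_self x k k'
    exact ((h1.mul_right h2).mul_left (h3.mul_right h4)).eq
  have := hmax (show B ∈ 𝒮 from ⟨hBn, hBc⟩) le_sup_left
  exact hxA (this ((le_sup_right : Subgroup.zpowers x ≤ B) (Subgroup.mem_zpowers x)))

end

end Pool.Agent.Lib.MP_9009ba_co
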