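import Mathlib

/-!
# A computation in rings of prime power characteristic
-/

namespace Pool.Agent.Lib.MP_9009ba_co

universe u

/-- The bimodule generated by `a - b`. -/
def bim {E : Type u} [Ring E] (a b : E) : AddSubgroup E :=
  AddSubgroup.closure {z | ∃ u w : ℕ, z = a ^ u * (a - b) * b ^ w}

lemma bim_left {E : Type u} [Ring E] {a b z : E} (hz : z ∈ bim a b) : a * z ∈ bim a b := by
  unfold bim at hz
  induction hz using AddSubgroup.closure_induction with
  | mem x hx =>
    obtain ⟨u, w, rfl⟩ := hx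
    apply AddSubgroup.subset_closure
    exact ⟨u + 1, w, by rw [pow_succ']; noncomm_ring⟩
  | zero =>
    rw [mul_zero]
    exact zero_mem _
  | add x y _ _ hx hy =>
    rw [mul_add]
    exact add_mem hx hy
  | neg x _ hx =>
    rw [mul_neg]
    exact neg_mem hx

lemma bim_right {E : Type u} [Ring E] {a b z : E} (hz : z ∈ bim a b) : z * b ∈ bim a b := by
  unfold bim at hz
  induction hz using AddSubgroup.closure_induction with
  | mem x hx =>
    obtain ⟨u, w, rfl⟩ := hx
    apply AddSubgroup.subset_closure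
    exact ⟨u, w + 1, by rw [pow_succ]; noncomm_ring⟩
  | zero =>
    rw [zero_mul]
    exact zero_mem _
  | add x y _ _ hx hy =>
    rw [add_mul]
    exact add_mem hx hy
  | neg x _ hx =>
    rw [neg_mul]
    exact neg_mem hx

lemma bim_pow {E : Type u} [Ring E] {a b z : E} (hz : z ∈ bim a b) (u w : ℕ) :
    a ^ u * z * b ^ w ∈ bim a b := by
  have h1 : ∀ u : ℕ, a ^ u * z ∈ bim a b := by
    intro u
    induction u with
    | zero => simpa using hz
    | succ u ih =>
      rw [pow_succ', mul_assoc]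
      exact bim_left ih
  induction w with
  | zero => simpa using h1 u
  | succ w ih =>
    rw [pow_succ, ← mul_assoc]
    exact bim_right ih

lemma sub_mem_bim {E : Type u} [Ring E] (a b : E) : a - b ∈ bim a b := by
  apply AddSubgroup.subset_closure
  exact ⟨0, 0, by simp⟩

lemma pow_sub_pow_mem {E : Type u} [Ring E] (a b : E) (k : ℕ) : a ^ k - b ^ k ∈ bim a b := by
  induction k with
  | zero =>
    simp only [pow_zero, sub_self]
    exact zero_mem _
  | succ k ih =>
    have h : a ^ (k + 1) - b ^ (k + 1) = a * (a ^ k - b ^ k) + (a - b) * b ^ k := by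
      rw [pow_succ', pow_succ']
      noncomm_ring
    rw [h]
    apply add_mem (bim_left ih)
    have := bim_pow (sub_mem_bim a b) 0 k
    simpa using this

/-- If `x = 1 + p² a` and `y = 1 + p² b` have the same `p`-th power in a ring where a power of
`p` vanishes, then `p (x - y) = 0`. -/
theorem ring_key {E : Type u} [Ring E] {p e : ℕ} (hp : 2 ≤ p) (hE : (p : E) ^ e = 0) (a b : E)
    (h : (1 + (p : E) ^ 2 * a) ^ p = (1 + (p : E) ^ 2 * b) ^ p) :
    (p : E) ^ 3 * (a - b) = 0 := by
  -- the binomial expansion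
  have hcomm : ∀ z : E, Commute ((p : E)) z := fun z => Nat.cast_commute p z
  have hexp : ∀ z : E, (1 + (p : E) ^ 2 * z) ^ p =
      ∑ k ∈ Finset.range (p + 1), (p : E) ^ (2 * k) * z ^ k * (p.choose k : E) := by
    intro z
    rw [add_comm, (Commute.one_right _).add_pow]
    apply Finset.sum_congr rfl
    intro k _
    rw [one_pow, mul_one, ((hcomm z).pow_left 2).mul_pow, ← pow_mul]
  rw [hexp, hexp] at h
  have h1 : ∑ k ∈ Finset.range (p + 1),
      (p : E) ^ (2 * k) * (a ^ k - b ^ k) * (p.choose k : E) = 0 := by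
    have : ∀ k, (p : E) ^ (2 * k) * (a ^ k - b ^ k) * (p.choose k : E) =
        (p : E) ^ (2 * k) * a ^ k * (p.choose k : E) -
          (p : E) ^ (2 * k) * b ^ k * (p.choose k : E) := by
      intro k
      noncomm_ring
    simp_rw [this]
    rw [Finset.sum_sub_distrib, h, sub_self]
  obtain ⟨q, rfl⟩ : ∃ q, p = q + 2 := ⟨p - 2, by omega⟩
  -- the terms with `k ≥ 2`
  set P : E := ((q + 2 : ℕ) : E) with hP
  have h2 : ∃ x ∈ bim a b, P ^ 3 * (a - b) = P ^ 4 * x := by
    rw [show q + 2 + 1 = (q + 1) + 1 + 1 by ring, Finset.sum_range_succ',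
      Finset.sum_range_succ'] at h1
    simp only [mul_zero, pow_zero, sub_self, zero_mul, zero_add, add_zero, mul_one, pow_one,
      Nat.choose_one_right] at h1
    refine ⟨-∑ k ∈ Finset.range (q + 1), P ^ (2 * k) *
      (a ^ (k + 1 + 1) - b ^ (k + 1 + 1)) * (((q + 2).choose (k + 1 + 1) : ℕ) : E), ?_, ?_⟩
    · apply neg_mem
      apply sum_mem
      intro k _
      have e1 : P ^ (2 * k) * (a ^ (k + 1 + 1) - b ^ (k + 1 + 1)) *
          (((q + 2).choose (k + 1 + 1) : ℕ) : E) =
          ((q + 2) ^ (2 * k) * (q + 2).choose (k + 1 + 1)) • (a ^ (k + 1 + 1) - b ^ (k + 1 + 1)) := by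
        rw [nsmul_eq_mul, Nat.cast_mul, Nat.cast_pow, ← hP]
        rw [mul_assoc, mul_assoc]
        congr 1
        exact (Nat.cast_commute _ _).symm
      rw [e1]
      exact nsmul_mem (pow_sub_pow_mem a b _) _
    · have e2 : P ^ 4 * -∑ k ∈ Finset.range (q + 1), P ^ (2 * k) *
          (a ^ (k + 1 + 1) - b ^ (k + 1 + 1)) * (((q + 2).choose (k + 1 + 1) : ℕ) : E) =
          -∑ k ∈ Finset.range (q + 1), P ^ (2 * (k + 1 + 1)) *
          (a ^ (k + 1 + 1) - b ^ (k + 1 + 1)) * (((q + 2).choose (k + 1 + 1) : ℕ) : E) := by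
        rw [mul_neg, Finset.mul_sum]
        congr 1
        apply Finset.sum_congr rfl
        intro k _
        rw [← mul_assoc, ← mul_assoc, ← pow_add]
        congr 3
        ring
      rw [e2]
      have e3 : P ^ 3 * (a - b) = P ^ (2 * 1) * (a - b) * P := by
        rw [mul_assoc, ← (hcomm (a - b)).eq, ← mul_assoc]
        congr 1
        rw [mul_one, ← pow_succ]
      rw [e3, eq_neg_iff_add_eq_zero, add_comm]
      convert h1 using 2
  obtain ⟨x1, hx1, hx⟩ := h2
  have h3 : ∀ z ∈ bim a b, ∃ z' ∈ bim a b, P ^ 3 * z = P ^ 4 * z' := by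
    intro z hz
    have hz' : z ∈ AddSubgroup.closure {z | ∃ u w : ℕ, z = a ^ u * (a - b) * b ^ w} := hz
    induction hz' using AddSubgroup.closure_induction with
    | mem x hx' =>
      obtain ⟨u, w, rfl⟩ := hx'
      refine ⟨a ^ u * x1 * b ^ w, bim_pow hx1 u w, ?_⟩
      have c3 : Commute (P ^ 3) (a ^ u) := ((hcomm a).pow_left 3).pow_right u
      have c4 : Commute (P ^ 4) (a ^ u) := ((hcomm a).pow_left 4).pow_right u
      calc P ^ 3 * (a ^ u * (a - b) * b ^ w) = (P ^ 3 * a ^ u) * (a - b) * b ^ w := by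
            noncomm_ring
        _ = (a ^ u * P ^ 3) * (a - b) * b ^ w := by rw [c3.eq]
        _ = a ^ u * (P ^ 3 * (a - b)) * b ^ w := by noncomm_ring
        _ = a ^ u * (P ^ 4 * x1) * b ^ w := by rw [hx]
        _ = (a ^ u * P ^ 4) * x1 * b ^ w := by noncomm_ring
        _ = (P ^ 4 * a ^ u) * x1 * b ^ w := by rw [c4.eq]
        _ = P ^ 4 * (a ^ u * x1 * b ^ w) := by noncomm_ring
    | zero => exact ⟨0, zero_mem _, by simp⟩
    | add x y hx0 hy0 ihx ihy =>
      obtain ⟨x', hx', ex⟩ := ihx hx0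
      obtain ⟨y', hy', ey⟩ := ihy hy0
      exact ⟨x' + y', add_mem hx' hy', by rw [mul_add, mul_add, ex, ey]⟩
    | neg x hx0 ihx =>
      obtain ⟨x', hx', ex⟩ := ihx hx0
      exact ⟨-x', neg_mem hx', by rw [mul_neg, mul_neg, ex]⟩
  have h4 : ∀ n : ℕ, ∀ z ∈ bim a b, ∃ z' ∈ bim a b, P ^ 3 * z = P ^ (3 + n) * z' := by
    intro n
    induction n with
    | zero =>
      intro z hz
      exact ⟨z, hz, rfl⟩
    | succ n ih =>
      intro z hz
      obtain ⟨z1, hz1, e1⟩ := ih z hz
      obtain ⟨z2, hz2, e2⟩ := h3 z1 hz1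
      refine ⟨z2, hz2, ?_⟩
      rw [e1, add_comm 3 n, pow_add, mul_assoc, e2, ← mul_assoc, ← pow_add]
      congr 2
      ring
  obtain ⟨z', -, hz'⟩ := h4 e (a - b) (sub_mem_bim a b)
  rw [hz', add_comm, pow_add, hE, zero_mul, zero_mul]

end Pool.Agent.Lib.MP_9009ba_co
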