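import Mathlib
import Pool.Agent.Lib.MP_9009ba_co.PGroupA
import Pool.Agent.Lib.MP_9009ba_co.RingKey

/-!
# Generators of finite `p`-groups acting faithfully on abelian groups of bounded rank
-/

namespace Pool.Agent.Lib.MP_9009ba_co

universe u v

section Ideal

/-- The ideal `p² E`. -/
def J (A : Type u) [CommGroup A] (p : ℕ) : AddSubgroup (AddMonoid.End (Additive A)) :=
  (AddMonoidHom.mulLeft ((p : AddMonoid.End (Additive A)) ^ 2)).range

variable {A : Type u} [CommGroup A] {p : ℕ}

lemma mem_J {f : AddMonoid.End (Additive A)} :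
    f ∈ J A p ↔ ∃ a : AddMonoid.End (Additive A), (p : AddMonoid.End (Additive A)) ^ 2 * a = f :=
  Iff.rfl

lemma J_mul_mem {f g : AddMonoid.End (Additive A)} (hf : f ∈ J A p) : g * f ∈ J A p := by
  obtain ⟨a, rfl⟩ := mem_J.mp hf
  rw [mem_J]
  refine ⟨g * a, ?_⟩
  rw [← mul_assoc, ← mul_assoc, ((Nat.cast_commute p g).pow_left 2).eq]

end Ideal

section Comm

variable {A : Type u} [CommGroup A] [Finite A] {p : ℕ} [Fact p.Prime]

theorem comm_gens (hA : IsPGroup p A) {r : ℕ}
    (hr : Nat.card (powMonoidHom p : A →* A).ker ≤ p ^ r) :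
    ∃ S : Finset A, S.card ≤ r ∧ Subgroup.closure (S : Set A) = ⊤ := by
  have h1 : (powMonoidHom p : A →* A).range.index ≤ p ^ r := by
    rw [Subgroup.index_range]
    exact hr
  obtain ⟨S, hS, hSt⟩ := exists_gens_of_index_le hA r _ h1
  refine ⟨S, hS, ?_⟩
  apply eq_top_of_sup_pow hA
  rw [eq_top_iff, ← hSt]
  refine sup_le ?_ le_sup_left
  refine le_trans ?_ le_sup_right
  rintro _ ⟨x, rfl⟩
  exact Subgroup.subset_closure ⟨x, rfl⟩

theorem card_End_torsion (hA : IsPGroup p A) {r : ℕ}
    (hr : Nat.card (powMonoidHom p : A →* A).ker ≤ p ^ r) :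
    Nat.card {f : AddMonoid.End (Additive A) // (p : AddMonoid.End (Additive A)) * f = 0} ≤
      p ^ (r * r) := by
  classical
  obtain ⟨S, hS, hSt⟩ := comm_gens hA hr
  let K := (powMonoidHom p : A →* A).ker
  have hmem : ∀ f : {f : AddMonoid.End (Additive A) // (p : AddMonoid.End (Additive A)) * f = 0},
      ∀ s : A, Additive.toMul (f.1 (Additive.ofMul s)) ∈ K := by
    intro f s
    show (Additive.toMul (f.1 (Additive.ofMul s))) ^ p = 1
    have h := congrArg (fun g : AddMonoid.End (Additive A) => Additive.toMul (g (Additive.ofMul s)))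
      f.2
    exact h
  let Φ : {f : AddMonoid.End (Additive A) // (p : AddMonoid.End (Additive A)) * f = 0} →
      (S → K) := fun f s => ⟨Additive.toMul (f.1 (Additive.ofMul (s : A))), hmem f s⟩
  have hinj : Function.Injective Φ := by
    intro f g hfg
    apply Subtype.ext
    have hall : ∀ a : A, f.1 (Additive.ofMul a) = g.1 (Additive.ofMul a) := by
      intro a
      have ha : a ∈ Subgroup.closure (S : Set A) := by
        rw [hSt]
        trivial
      induction ha using Subgroup.closure_induction with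
      | mem x hx =>
        have := congrFun hfg ⟨x, hx⟩
        exact congrArg Subtype.val this
      | one =>
        rw [ofMul_one, map_zero, map_zero]
      | mul x y _ _ hx hy =>
        rw [ofMul_mul, map_add, map_add, hx, hy]
      | inv x _ hx =>
        rw [ofMul_inv, map_neg, map_neg, hx]
    exact AddMonoidHom.ext fun a => hall (Additive.toMul a)
  calc Nat.card {f : AddMonoid.End (Additive A) // (p : AddMonoid.End (Additive A)) * f = 0}
      ≤ Nat.card (S → K) := Nat.card_le_card_of_injective Φ hinj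
    _ = Nat.card K ^ Nat.card S := by rw [Nat.card_fun]
    _ = Nat.card K ^ S.card := by simp
    _ ≤ (p ^ r) ^ S.card := Nat.pow_le_pow_left hr _
    _ ≤ (p ^ r) ^ r := Nat.pow_le_pow_right (pow_pos (Fact.out : p.Prime).pos r) hS
    _ = p ^ (r * r) := by rw [← pow_mul]

instance : Finite (AddMonoid.End (Additive A)) := by
  apply Finite.of_injective (fun f : AddMonoid.End (Additive A) => (f : Additive A → Additive A))
  exact DFunLike.coe_injective

theorem index_J (hA : IsPGroup p A) {r : ℕ}
    (hr : Nat.card (powMonoidHom p : A →* A).ker ≤ p ^ r) :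
    (J A p).index ≤ p ^ (2 * (r * r)) := by
  set m : AddMonoid.End (Additive A) →+ AddMonoid.End (Additive A) :=
    AddMonoidHom.mulLeft (p : AddMonoid.End (Additive A)) with hm
  have h1 : J A p = m.range.map m := by
    ext f
    rw [mem_J, AddSubgroup.mem_map]
    constructor
    · rintro ⟨a, rfl⟩
      refine ⟨(p : AddMonoid.End (Additive A)) * a, ⟨a, rfl⟩, ?_⟩
      rw [hm, AddMonoidHom.coe_mulLeft, ← mul_assoc, pow_two]
    · rintro ⟨_, ⟨a, rfl⟩, rfl⟩
      refine ⟨a, ?_⟩
      rw [hm, AddMonoidHom.coe_mulLeft]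
      show _ = (p : AddMonoid.End (Additive A)) * ((p : AddMonoid.End (Additive A)) * a)
      rw [← mul_assoc, pow_two]
  have h2 : m.range.index ≤ p ^ (r * r) := by
    rw [AddSubgroup.index_range]
    exact card_End_torsion hA hr
  rw [h1, AddSubgroup.index_map]
  calc (m.range ⊔ m.ker).index * m.range.index ≤ m.range.index * m.range.index :=
        Nat.mul_le_mul_right _ (AddSubgroup.index_antitone le_sup_left)
    _ ≤ p ^ (r * r) * p ^ (r * r) := Nat.mul_le_mul h2 h2
    _ = p ^ (2 * (r * r)) := by rw [← pow_add, two_mul]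

end Comm

section Act

variable {P : Type v} [Group P] {A : Type u} [CommGroup A]

/-- The action by automorphisms, as a homomorphism to the endomorphism ring. -/
def actHom (ρ : P →* MulAut A) : P →* AddMonoid.End (Additive A) where
  toFun x := MonoidHom.toAdditive (ρ x).toMonoidHom
  map_one' := by
    ext a
    rw [map_one]
    rfl
  map_mul' x y := by
    ext a
    rw [map_mul]
    rfl

lemma actHom_apply (ρ : P →* MulAut A) (x : P) (a : A) :
    actHom ρ x (Additive.ofMul a) = Additive.ofMul (ρ x a) := rfl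

lemma actHom_eq_one {ρ : P →* MulAut A} {x : P} (h : actHom ρ x = 1) : ρ x = 1 := by
  ext a
  have := congrArg (fun g : AddMonoid.End (Additive A) => g (Additive.ofMul a)) h
  exact congrArg Additive.toMul this

variable (p : ℕ)

/-- The subgroup of elements that act trivially modulo `p²`. -/
def congSub (ρ : P →* MulAut A) : Subgroup P where
  carrier := {x | actHom ρ x - 1 ∈ J A p}
  mul_mem' {x y} hx hy := by
    show actHom ρ (x * y) - 1 ∈ J A p
    have : actHom ρ (x * y) - 1 = actHom ρ x * (actHom ρ y - 1) + (actHom ρ x - 1) := by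
      rw [map_mul, mul_sub, mul_one, sub_add_sub_cancel]
    rw [this]
    exact add_mem (J_mul_mem hy) hx
  one_mem' := by
    show actHom ρ 1 - 1 ∈ J A p
    rw [map_one, sub_self]
    exact zero_mem _
  inv_mem' {x} hx := by
    show actHom ρ x⁻¹ - 1 ∈ J A p
    have : actHom ρ x⁻¹ - 1 = -(actHom ρ x⁻¹ * (actHom ρ x - 1)) := by
      rw [mul_sub, ← map_mul, inv_mul_cancel, map_one, mul_one, neg_sub]
    rw [this]
    exact neg_mem (J_mul_mem hx)

lemma mem_congSub {ρ : P →* MulAut A} {x : P} : x ∈ congSub p ρ ↔ actHom ρ x - 1 ∈ J A p :=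
  Iff.rfl

theorem index_congSub [Finite P] [Finite A] (ρ : P →* MulAut A) :
    (congSub p ρ).index ≤ (J A p).index := by
  have key : ∀ x y : P, x⁻¹ * y ∈ congSub p ρ ↔ -actHom ρ x + actHom ρ y ∈ J A p := by
    intro x y
    rw [mem_congSub]
    constructor
    · intro h
      have : -actHom ρ x + actHom ρ y = actHom ρ x * (actHom ρ (x⁻¹ * y) - 1) := by
        rw [mul_sub, ← map_mul, mul_inv_cancel_left, mul_one]
        abel
      rw [this]
      exact J_mul_mem h
    · intro h
      have : actHom ρ (x⁻¹ * y) - 1 = actHom ρ x⁻¹ * (-actHom ρ x + actHom ρ y) := by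
        have e : -actHom ρ x + actHom ρ y = actHom ρ y - actHom ρ x := by abel
        rw [e, mul_sub, ← map_mul, ← map_mul, inv_mul_cancel, map_one]
      rw [this]
      exact J_mul_mem h
  have hfin : Finite (AddMonoid.End (Additive A) ⧸ J A p) := inferInstance
  show Nat.card (P ⧸ congSub p ρ) ≤ Nat.card (AddMonoid.End (Additive A) ⧸ J A p)
  let F : P ⧸ congSub p ρ → AddMonoid.End (Additive A) ⧸ J A p :=
    Quotient.lift (fun x => QuotientAddGroup.mk (actHom ρ x)) (by
      intro x y hxy
      rw [QuotientAddGroup.eq]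
      rw [← key]
      exact QuotientGroup.leftRel_apply.mp hxy)
  apply Nat.card_le_card_of_injective F
  intro a b
  induction a using Quotient.inductionOn with | _ x
  induction b using Quotient.inductionOn with | _ y
  intro h
  have h' : (QuotientAddGroup.mk (actHom ρ x) : AddMonoid.End (Additive A) ⧸ J A p) =
    QuotientAddGroup.mk (actHom ρ y) := h
  rw [QuotientAddGroup.eq, ← key] at h'
  exact Quotient.sound (QuotientGroup.leftRel_apply.mpr h')

end Act

section Fiber

lemma index_le_of_fiber {Q : Type u} [Group Q] [Finite Q] {p c : ℕ} (L : Subgroup Q)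
    (hL : ∀ q : Q, q ^ p ∈ L) (hfib : ∀ q₀ : Q, Nat.card {q : Q // q ^ p = q₀ ^ p} ≤ c) :
    L.index ≤ c := by
  classical
  have := Fintype.ofFinite Q
  have h1 : Nat.card Q ≤ c * Nat.card L := by
    have e1 : Nat.card L = (Finset.univ.filter (· ∈ L)).card := by
      rw [Nat.card_eq_fintype_card, Fintype.card_subtype]
    rw [e1, Nat.card_eq_fintype_card]
    apply Finset.card_le_mul_card_image_of_maps_to (f := fun q : Q => q ^ p)
    · intro q _
      simpa using hL q
    · intro b _
      by_cases hb : ∃ q₀ : Q, q₀ ^ p = b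
      · obtain ⟨q₀, rfl⟩ := hb
        have := hfib q₀
        rwa [Nat.card_eq_fintype_card, Fintype.card_subtype] at this
      · rw [Finset.card_eq_zero.mpr]
        · exact Nat.zero_le _
        · rw [Finset.filter_eq_empty_iff]
          intro q _ hq
          exact hb ⟨q, hq⟩
  have h2 := L.card_mul_index
  rw [← h2, mul_comm c] at h1
  exact Nat.le_of_mul_le_mul_left h1 Nat.card_pos

end Fiber

section Main

variable {P : Type v} [Group P] [Finite P] {A : Type u} [CommGroup A] [Finite A] {p : ℕ}
  [Fact p.Prime]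

theorem exists_pow_eq_zero (hA : IsPGroup p A) :
    ∃ e : ℕ, (p : AddMonoid.End (Additive A)) ^ e = 0 := by
  obtain ⟨n, hn⟩ := IsPGroup.iff_card.mp hA
  refine ⟨n, ?_⟩
  rw [← Nat.cast_pow, ← hn]
  ext a
  show Nat.card A • a = 0
  have : (Additive.toMul a) ^ Nat.card A = 1 := pow_card_eq_one'
  exact this

/-- The congruence subgroup is generated by the kernel of the action and at most `r²` further
elements. -/
theorem congSub_gens (hP : IsPGroup p P) (hA : IsPGroup p A) (ρ : P →* MulAut A) {r : ℕ}
    (hr : Nat.card (powMonoidHom p : A →* A).ker ≤ p ^ r) :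
    ∃ S : Finset P, S.card ≤ r * r ∧ congSub p ρ ≤ ρ.ker ⊔ Subgroup.closure (S : Set P) := by
  classical
  set C := congSub p ρ with hC
  have hCP : IsPGroup p C := hP.to_subgroup C
  let E := AddMonoid.End (Additive A)
  let φ : C →* Eˣ := ((actHom ρ).comp C.subtype).toHomUnits
  have hφ : ∀ x : C, ((φ x : Eˣ) : E) = actHom ρ (x : P) := fun x => rfl
  let φ' := φ.rangeRestrict
  let H : Subgroup C := Subgroup.closure (Set.range fun x : C => x ^ p)
  have hindex : (H ⊔ φ'.ker).index ≤ p ^ (r * r) := by
    have h1 := Subgroup.index_map H φ'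
    have h2 : φ'.range = ⊤ := MonoidHom.range_eq_top.mpr φ.rangeRestrict_surjective
    rw [h2, Subgroup.index_top, mul_one] at h1
    rw [← h1]
    apply index_le_of_fiber (p := p)
    · intro q
      obtain ⟨x, rfl⟩ := φ.rangeRestrict_surjective q
      rw [← map_pow]
      exact Subgroup.mem_map_of_mem _ (Subgroup.subset_closure ⟨x, rfl⟩)
    · intro q₀
      refine le_trans ?_ (card_End_torsion hA hr)
      have hval : ∀ q : φ.range, ∃ a : E, ((q : Eˣ) : E) = 1 + (p : E) ^ 2 * a := by
        intro q
        obtain ⟨x, hx⟩ := q.2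
        obtain ⟨a, ha⟩ := mem_J.mp ((mem_congSub p).mp x.2)
        refine ⟨a, ?_⟩
        rw [← hx, hφ, ha]
        noncomm_ring
      have hkey : ∀ q : {q : φ.range // q ^ p = q₀ ^ p},
          (p : E) * (((q.1 : Eˣ) : E) - ((q₀ : Eˣ) : E)) = 0 := by
        intro q
        obtain ⟨a, ha⟩ := hval q.1
        obtain ⟨b, hb⟩ := hval q₀
        have hpow : ((q.1 : Eˣ) : E) ^ p = ((q₀ : Eˣ) : E) ^ p := by
          have := congrArg (fun z : φ.range => ((z : Eˣ) : E)) q.2
          simpa using this
        obtain ⟨e, he⟩ := exists_pow_eq_zero hA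
        rw [ha, hb] at hpow
        have := ring_key (Fact.out : p.Prime).two_le he a b hpow
        rw [ha, hb, ← this, add_sub_add_left_eq_sub, ← mul_sub, ← mul_assoc, ← pow_succ']
      let F : {q : φ.range // q ^ p = q₀ ^ p} → {f : E // (p : E) * f = 0} :=
        fun q => ⟨((q.1 : Eˣ) : E) - ((q₀ : Eˣ) : E), hkey q⟩
      apply Nat.card_le_card_of_injective F
      intro q q' h
      have h' : ((q.1 : Eˣ) : E) - ((q₀ : Eˣ) : E) = ((q'.1 : Eˣ) : E) - ((q₀ : Eˣ) : E) :=
        congrArg Subtype.val h
      apply Subtype.ext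
      apply Subtype.ext
      apply Units.ext
      exact sub_left_injective h'
  obtain ⟨S, hS, hSt⟩ := exists_gens_of_index_le hCP _ _ hindex
  have htop : φ'.ker ⊔ Subgroup.closure (S : Set C) = ⊤ := by
    apply eq_top_of_sup_pow hCP
    rw [eq_top_iff, ← hSt]
    refine sup_le (sup_le le_sup_right ?_) ?_
    · exact le_sup_left.trans le_sup_left
    · exact le_sup_right.trans le_sup_left
  refine ⟨S.image (fun x : C => (x : P)), Finset.card_image_le.trans hS, ?_⟩
  intro x hx
  have h1 : (⟨x, hx⟩ : C) ∈ φ'.ker ⊔ Subgroup.closure (S : Set C) := by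
    rw [htop]
    trivial
  have h2 : x ∈ (φ'.ker ⊔ Subgroup.closure (S : Set C)).map C.subtype := ⟨⟨x, hx⟩, h1, rfl⟩
  rw [Subgroup.map_sup, MonoidHom.map_closure] at h2
  refine (sup_le_sup ?_ ?_ : _ ≤ ρ.ker ⊔ _) h2
  · rintro _ ⟨y, hy, rfl⟩
    rw [MonoidHom.mem_ker]
    apply actHom_eq_one
    have h3 : φ' y = 1 := hy
    have h4 : φ y = 1 := congrArg Subtype.val h3
    have h5 := congrArg (fun z : Eˣ => (z : E)) h4
    exact h5
  · apply Subgroup.closure_mono
    intro y hy
    simpa using hy

/-- A finite `p`-group `P` acting on a finite abelian `p`-group `A` of rank at most `r` with kernel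
contained in the image of `A` has at most `3r² + r` generators. -/
theorem pgroup_gens_aux (hP : IsPGroup p P) (hA : IsPGroup p A) (ρ : P →* MulAut A) (j : A →* P)
    (hker : ρ.ker ≤ j.range) {r : ℕ}
    (hr : Nat.card (powMonoidHom p : A →* A).ker ≤ p ^ r) :
    ∃ S : Finset P, S.card ≤ 3 * (r * r) + r ∧ Subgroup.closure (S : Set P) = ⊤ := by
  classical
  obtain ⟨S₁, hS₁, h₁⟩ := comm_gens hA hr
  obtain ⟨S₂, hS₂, h₂⟩ := congSub_gens hP hA ρ hr
  obtain ⟨S₃, hS₃, h₃⟩ := exists_gens_of_index_le hP (2 * (r * r)) (congSub p ρ)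
    ((index_congSub p ρ).trans (index_J hA hr))
  refine ⟨S₁.image j ∪ S₂ ∪ S₃, ?_, ?_⟩
  · have h4 := Finset.card_union_le (S₁.image j ∪ S₂) S₃
    have h5 := Finset.card_union_le (S₁.image j) S₂
    have h6 : (S₁.image j).card ≤ S₁.card := Finset.card_image_le
    omega
  · rw [eq_top_iff, ← h₃]
    refine sup_le (h₂.trans (sup_le (hker.trans ?_) ?_)) ?_
    · rw [MonoidHom.range_eq_map, ← h₁, MonoidHom.map_closure]
      apply Subgroup.closure_mono
      intro x hx
      simp only [Finset.coe_union, Finset.coe_image]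
      exact Or.inl (Or.inl hx)
    · apply Subgroup.closure_mono
      intro x hx
      simp only [Finset.coe_union, Finset.coe_image]
      exact Or.inl (Or.inr hx)
    · apply Subgroup.closure_mono
      intro x hx
      simp only [Finset.coe_union, Finset.coe_image]
      exact Or.inr hx

end Main

end Pool.Agent.Lib.MP_9009ba_co
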