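import Mathlib
import Pool.Agent.Lib.MP_9009ba_co.PGroupB
import Pool.Agent.Lib.MP_9009ba_co.Elementary

/-!
# Finite groups with many generators
-/

namespace Pool.Agent.Lib.MP_9009ba_co

universe u

theorem exists_addEmbedding_of_card' {V : Type u} [AddCommGroup V] [Finite V] {p : ℕ}
    [Fact p.Prime] {R : ℕ} [Module (ZMod p) V] (h : p ^ R ≤ Nat.card V) :
    ∃ f : EE p R →+ V, Function.Injective f := by
  have hmf : Module.Finite (ZMod p) V := Module.Finite.of_finite
  have hfr : Module.finrank (ZMod p) (Fin R → ZMod p) ≤ Module.finrank (ZMod p) V := by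
    rw [Module.finrank_fin_fun]
    have h1 : Nat.card V = p ^ Module.finrank (ZMod p) V := by
      rw [Module.natCard_eq_pow_finrank (K := ZMod p) (V := V), Nat.card_zmod]
    rw [h1] at h
    exact (Nat.pow_le_pow_iff_right (Fact.out : p.Prime).one_lt).mp h
  obtain ⟨f, hf⟩ := (finrank_le_iff_exists_linearMap).mp hfr
  exact ⟨f.toAddMonoidHom, hf⟩

theorem exists_addEmbedding_of_card {V : Type u} [AddCommGroup V] [Finite V] {p : ℕ}
    [Fact p.Prime] {R : ℕ} (hV : ∀ x : V, p • x = 0) (h : p ^ R ≤ Nat.card V) :
    ∃ f : EE p R →+ V, Function.Injective f :=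
  @exists_addEmbedding_of_card' V _ _ p _ R (AddCommGroup.zmodModule hV) h

theorem exists_embedding_of_card {A : Type u} [CommGroup A] [Finite A] {p : ℕ} [Fact p.Prime]
    {R : ℕ} (h : p ^ R ≤ Nat.card (powMonoidHom p : A →* A).ker) :
    ∃ ι : Multiplicative (EE p R) →* A, Function.Injective ι := by
  classical
  let K := (powMonoidHom p : A →* A).ker
  have hfinK : Finite (Additive K) := inferInstanceAs (Finite K)
  obtain ⟨f, hf⟩ := exists_addEmbedding_of_card (V := Additive K) (p := p) (R := R) (by
    intro x
    have hx : (((Additive.toMul x : K) : A)) ^ p = 1 := (Additive.toMul x).2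
    have : (Additive.toMul x : K) ^ p = 1 := Subtype.ext hx
    exact this) h
  refine ⟨{ toFun := fun v => ((Additive.toMul (f (Multiplicative.toAdd v)) : K) : A)
            map_one' := by
              rw [toAdd_one, map_zero]
              rfl
            map_mul' := by
              intro v w
              rw [toAdd_mul, map_add]
              rfl }, ?_⟩
  intro v w hvw
  have h1 : (Additive.toMul (f (Multiplicative.toAdd v)) : K) =
      (Additive.toMul (f (Multiplicative.toAdd w)) : K) := Subtype.ext hvw
  exact Multiplicative.toAdd.injective (hf (Additive.toMul.injective h1))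

/-- A finite `p`-group either contains `(Z/p)^R` or has at most `3R² + R` generators. -/
theorem pgroup_dichotomy {P : Type u} [Group P] [Finite P] {p : ℕ} [Fact p.Prime]
    (hP : IsPGroup p P) (R : ℕ) :
    (∃ ι : Multiplicative (EE p R) →* P, Function.Injective ι) ∨
      (∃ S : Finset P, S.card ≤ 3 * (R * R) + R ∧ Subgroup.closure (S : Set P) = ⊤) := by
  classical
  obtain ⟨A, hAn, hAc, hcent⟩ := exists_normal_abelian hP
  let _ : CommGroup A :=
    { (inferInstance : Group A) with
      mul_comm := fun x y => Subtype.ext (hAc x x.2 y y.2) }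
  have hA : IsPGroup p A := hP.to_subgroup A
  by_cases h : p ^ R ≤ Nat.card (powMonoidHom p : A →* A).ker
  · left
    obtain ⟨ι, hι⟩ := exists_embedding_of_card h
    exact ⟨A.subtype.comp ι, A.subtype_injective.comp hι⟩
  · right
    push Not at h
    refine pgroup_gens_aux (A := A) hP hA MulAut.conjNormal A.subtype ?_ h.le
    intro x hx
    rw [Subgroup.range_subtype]
    apply hcent
    rw [Subgroup.mem_centralizer_iff]
    intro a ha
    have h1 : MulAut.conjNormal x = (1 : MulAut A) := hx
    have h2 : (((MulAut.conjNormal x : MulAut A) ⟨a, ha⟩ : A) : P) = a := by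
      rw [h1]
      rfl
    rw [MulAut.conjNormal_apply] at h2
    have h3 : x * a * x⁻¹ = a := h2
    calc a * x = (x * a * x⁻¹) * x := by rw [h3]
      _ = x * a := by group

/-- A finite group is generated by Sylow subgroups, one for each prime. -/
theorem iSup_sylow_eq_top {G : Type u} [Group G] [Finite G]
    (Q : (Nat.card G).primeFactors → Subgroup G)
    (hQ : ∀ p, Nat.card (Q p) = (p : ℕ) ^ (Nat.card G).factorization p) :
    ⨆ p, Q p = ⊤ := by
  set H : Subgroup G := ⨆ p, Q p with hH
  have hdvd : Nat.card G ∣ Nat.card H := by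
    have hG0 : Nat.card G ≠ 0 := Nat.card_pos.ne'
    have hH0 : Nat.card H ≠ 0 := Nat.card_pos.ne'
    rw [← Nat.factorization_le_iff_dvd hG0 hH0]
    intro p
    by_cases hp : p ∈ (Nat.card G).primeFactors
    · have h1 : Nat.card (Q ⟨p, hp⟩) ∣ Nat.card H :=
        Subgroup.card_dvd_of_le (le_iSup Q ⟨p, hp⟩)
      rw [hQ] at h1
      exact (Nat.Prime.pow_dvd_iff_le_factorization (Nat.prime_of_mem_primeFactors hp) hH0).mp h1
    · rw [← Nat.support_factorization, Finsupp.notMem_support_iff] at hp
      rw [hp]
      exact Nat.zero_le _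
  exact Subgroup.eq_top_of_card_eq H
    (le_antisymm (Subgroup.card_le_card_group H) (Nat.le_of_dvd Nat.card_pos hdvd))

/-- A finite group with few prime divisors and many generators has a large elementary abelian
subgroup. -/
theorem exists_elementary_of_rank {G : Type u} [Group G] [Finite G] (R : ℕ)
    (h : (Nat.card G).primeFactors.card * (3 * (R * R) + R) < Group.rank G) :
    ∃ (p : ℕ) (_ : Fact p.Prime) (ι : Multiplicative (EE p R) →* G), Function.Injective ι := by
  classical
  by_contra hcon
  push Not at hcon
  have key : ∀ p : (Nat.card G).primeFactors, ∃ (Q : Subgroup G) (S : Finset G),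
      Nat.card Q = (p : ℕ) ^ (Nat.card G).factorization p ∧ S.card ≤ 3 * (R * R) + R ∧
      Subgroup.closure (S : Set G) = Q := by
    intro p
    have : Fact (p : ℕ).Prime := ⟨Nat.prime_of_mem_primeFactors p.2⟩
    obtain ⟨Q⟩ : Nonempty (Sylow (p : ℕ) G) := inferInstance
    rcases pgroup_dichotomy (P := Q) Q.isPGroup' R with ⟨ι, hι⟩ | ⟨S, hS, hSt⟩
    · exact (hcon p ⟨Nat.prime_of_mem_primeFactors p.2⟩ ((Q : Subgroup G).subtype.comp ι)
        ((Q : Subgroup G).subtype_injective.comp hι)).elim
    · refine ⟨Q, S.image (fun x : Q => (x : G)), Q.card_eq_multiplicity,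
        Finset.card_image_le.trans hS, ?_⟩
      have h1 : (((S.image (fun x : Q => (x : G))) : Finset G) : Set G) =
          (Q : Subgroup G).subtype '' (S : Set Q) := by
        rw [Finset.coe_image]
        rfl
      rw [h1, ← MonoidHom.map_closure, hSt, ← MonoidHom.range_eq_map, Subgroup.range_subtype]
  choose Q S hQ hS hSQ using key
  have htop := iSup_sylow_eq_top Q hQ
  have hcl : Subgroup.closure (((Finset.univ.biUnion S : Finset G)) : Set G) = ⊤ := by
    rw [eq_top_iff, ← htop]
    apply iSup_le
    intro p
    rw [← hSQ p]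
    apply Subgroup.closure_mono
    intro x hx
    simp only [Finset.coe_biUnion, Set.mem_iUnion]
    exact ⟨p, by simp, hx⟩
  have h1 := Group.rank_le hcl
  have h2 : (Finset.univ.biUnion S).card ≤ (Nat.card G).primeFactors.card * (3 * (R * R) + R) := by
    refine (Finset.card_biUnion_le_card_mul _ _ _ (fun p _ => hS p)).trans ?_
    simp
  omega

end Pool.Agent.Lib.MP_9009ba_co
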